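import Pool.Agent.H98.BC.Id4
import Pool.Agent.H98.FL.LogRes

/-!
# Module Core: no curve of solutions with constant `X Z`, `U`, `W` for at most four U-blocks

At a place where `X i j` has a zero or a pole, let `w > 0` be the greatest pole order of the
differences `Dl i j`.  For two or three U-blocks the equations of the `U i` say that all
`Dl i j ^ 2` are constant.  For four U-blocks let `Dl a b` have a pole of order `w`, and let `c`, `d` be
the other two blocks.  Then `gg a b - gg c d` is constant, and in `main_id` the left side has a pole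
of order `2 w`, the right side a pole of order at most `w`.
-/

set_option autoImplicit false
set_option linter.unusedSectionVars false

namespace Pool.Agent.H98.BC

open Pool.Agent.H43.BC Pool.Agent.H98.FL Pool.Agent.H98.FL.LogResAux

section

variable {M L : Type*} [Field M] [CharZero M] [Field L] [Algebra M L] (O : Ord M L)

/-- the constants -/
def Cc (M L : Type*) [Field M] [Field L] [Algebra M L] : Subfield L := (algebraMap M L).fieldRange

theorem mem_ge {u : L} (h : u ∈ Cc M L) : Ge O 0 u := by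
  obtain ⟨c, rfl⟩ := h
  exact ge_const O c

theorem mem_ord {u : L} (h : u ∈ Cc M L) (h0 : u ≠ 0) : O.ord u = 0 := by
  obtain ⟨c, rfl⟩ := h
  refine O.ord_const c ?_
  rintro rfl
  exact h0 (map_zero _)

theorem cmul {s : ℤ} {c u : L} (hc : c ∈ Cc M L) (hu : Ge O s u) : Ge O s (c * u) := by
  have h := (mem_ge O hc).mul hu
  rwa [zero_add] at h

theorem ge_sub {s : ℤ} {u v : L} (h : Ge O s u) (h' : Ge O s v) : Ge O s (u - v) := by
  rw [sub_eq_add_neg]
  exact h.add (ge_neg h')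

theorem mem_ge' {s : ℤ} (hs : s ≤ 0) {u : L} (h : u ∈ Cc M L) : Ge O s u := by
  rcases mem_ge O h with h1 | h1
  · exact Or.inl h1
  · exact Or.inr (hs.trans h1)

theorem ord_sq {u : L} (h : u ≠ 0) : O.ord (u ^ 2) = 2 * O.ord u := by
  rw [sq, O.ord_mul u u h h]; ring

/-- the greatest pole order -/
theorem exists_w {k : ℕ} {x : Pb k → Pb k → L} (hX : ∀ i j, X x i j ≠ 0) (hZ : ∀ i j, Z x i j ≠ 0)
    (hp : ∀ i j, pp x i j ∈ Cc M L) (hpole : ∃ i j : Fin k, i ≠ j ∧ O.ord (X x i j) ≠ 0) :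
    ∃ (w : ℤ) (a b : Fin k), 0 < w ∧ a ≠ b ∧ Dl x a b ≠ 0 ∧ O.ord (Dl x a b) = -w ∧
      (∀ i j, i ≠ j → Ge O (-w) (Dl x i j)) ∧ ∀ i j, i ≠ j → Ge O (-w) (Sg x i j) := by
  classical
  have hneg : ∀ {u v : L}, u ≠ 0 → v ≠ 0 → O.ord v = -O.ord u → O.ord u < 0 →
      (u - v ≠ 0 ∧ O.ord (u - v) = O.ord u) := by
    intro u v hu hv h1 h2
    have hne : u - v ≠ 0 := by
      intro h0
      have : u = v := sub_eq_zero.1 h0
      rw [this] at h1 h2
      omega
    refine ⟨hne, ?_⟩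
    have g1 : Ge O (O.ord u) (u - v) := ge_sub O (Or.inr le_rfl) (Or.inr (by omega))
    have g2 := g1.resolve_left hne
    have g3 := O.ord_add (u - v) v hne hv (by rwa [sub_add_cancel])
    rw [sub_add_cancel, min_le_iff] at g3
    rcases g3 with g3 | g3 <;> omega
  have hlow : ∀ i j : Fin k, O.ord (X x i j) ≠ 0 → Dl x i j ≠ 0 ∧ O.ord (Dl x i j) < 0 := by
    intro i j hne
    have hs : O.ord (Z x i j) = -O.ord (X x i j) := by
      have h1 := O.ord_mul _ _ (hX i j) (hZ i j)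
      have h2 := mem_ord O (hp i j) (mul_ne_zero (hX i j) (hZ i j))
      rw [pp, h1] at h2
      omega
    rcases lt_or_gt_of_ne hne with h1 | h1
    · have h2 := hneg (hX i j) (hZ i j) hs h1
      rw [Dl]
      exact ⟨h2.1, by rw [h2.2]; exact h1⟩
    · have h2 := hneg (hZ i j) (hX i j) (by omega) (by omega)
      have h3 : Dl x i j = -(Z x i j - X x i j) := by rw [Dl]; ring
      have h4 : O.ord (-(Z x i j - X x i j)) = O.ord (Z x i j - X x i j) := by
        have h5 := O.ord_mul (-1) (Z x i j - X x i j) (by norm_num) h2.1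
        have h6 : O.ord (-1 : L) = 0 := by
          have := O.ord_const (-1 : M) (by norm_num)
          rwa [map_neg, map_one] at this
        rw [neg_one_mul] at h5
        rw [h5, h6, zero_add]
      rw [h3, h4]
      exact ⟨neg_ne_zero.2 h2.1, by rw [h2.2]; omega⟩
  obtain ⟨i0, j0, hij0, hne0⟩ := hpole
  obtain ⟨hd0, hd1⟩ := hlow i0 j0 hne0
  obtain ⟨⟨a, b⟩, hab, hmax⟩ := Finset.exists_max_image
    (Finset.univ.filter fun q : Fin k × Fin k => q.1 ≠ q.2 ∧ Dl x q.1 q.2 ≠ 0)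
    (fun q => -O.ord (Dl x q.1 q.2)) ⟨(i0, j0), by simp [hij0, hd0]⟩
  simp only [Finset.mem_filter, Finset.mem_univ, true_and] at hab hmax
  have h0 := hmax (i0, j0) ⟨hij0, hd0⟩
  dsimp only at h0 hab
  have hD : ∀ i j, i ≠ j → Ge O (-(-O.ord (Dl x a b))) (Dl x i j) := by
    intro i j hij
    by_cases h1 : Dl x i j = 0
    · exact Or.inl h1
    · have h2 := hmax (i, j) ⟨hij, h1⟩
      dsimp only at h2
      exact Or.inr (by omega)
  refine ⟨-O.ord (Dl x a b), a, b, by omega, hab.1, hab.2, by ring, hD, fun i j hij => ?_⟩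
  by_cases h1 : Sg x i j = 0
  · exact Or.inl h1
  right
  have h2 : Sg x i j ^ 2 = Dl x i j ^ 2 + 4 * pp x i j := by
    rw [Sg, Dl, pp]; ring
  have h3 : Ge O (2 * O.ord (Dl x a b)) (Sg x i j ^ 2) := by
    rw [h2]
    refine Ge.add ?_ ?_
    · have h4 := (hD i j hij).mul (hD i j hij)
      rw [sq]
      have h5 : -(-O.ord (Dl x a b)) + -(-O.ord (Dl x a b)) = 2 * O.ord (Dl x a b) := by ring
      rwa [h5] at h4
    · refine mem_ge' O (by omega) ?_
      exact (Cc M L).mul_mem (by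
        have : ((4 : ℕ) : L) ∈ Cc M L := natCast_mem _ _
        exact_mod_cast this) (hp i j)
  have h4 := h3.resolve_left (pow_ne_zero 2 h1)
  rw [ord_sq O h1] at h4
  omega

variable {k : ℕ} {N : Pb k → M} {e : M} {x : Pb k → Pb k → L}

theorem mem_N (a : Pb k) : algebraMap M L (N a) ∈ Cc M L := ⟨N a, rfl⟩

theorem mem_sn (i : Fin k) : sn (fun p => algebraMap M L (N p)) i ∈ Cc M L := ⟨_, rfl⟩

theorem mem_bb : bb (fun p => algebraMap M L (N p)) (algebraMap M L e) ∈ Cc M L :=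
  ⟨bb N e, by simp only [bb, map_mul, map_add, map_sum, map_ofNat]⟩

section mem

variable (hp : ∀ i j, pp x i j ∈ Cc M L) (hU : ∀ i, U x i ∈ Cc M L) (hW : ∀ i, W x i ∈ Cc M L)

theorem mem_two : (2 : L) ∈ Cc M L := by
  have : ((2 : ℕ) : L) ∈ Cc M L := natCast_mem _ _
  exact_mod_cast this

theorem mem_four : (4 : L) ∈ Cc M L := by
  have : ((4 : ℕ) : L) ∈ Cc M L := natCast_mem _ _
  exact_mod_cast this

theorem mem_eight : (8 : L) ∈ Cc M L := by
  have : ((8 : ℕ) : L) ∈ Cc M L := natCast_mem _ _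
  exact_mod_cast this

include hU in
theorem mem_be (i : Fin k) : (sn (fun p => algebraMap M L (N p)) i + algebraMap M L e) *
    (U x i)⁻¹ ∈ Cc M L :=
  mul_mem (add_mem (mem_sn i) ⟨e, rfl⟩) (inv_mem (hU i))

include hU hW in
theorem mem_kk (i : Fin k) :
    kk (fun p => algebraMap M L (N p)) (algebraMap M L e) x i ∈ Cc M L := by
  unfold kk
  exact mul_mem (mem_sn i) (sub_mem (sub_mem mem_bb (hU i)) (mul_mem (mem_N none)
    (mul_mem (sub_mem (mul_mem mem_two (pow_mem (hW i) 2)) (pow_mem (hU i) 2))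
      (mul_mem (inv_mem (hW i)) (inv_mem (hW i))))))

include hp hU in
theorem mem_ck (i j : Fin k) : ck (fun p => algebraMap M L (N p)) x i j ∈ Cc M L := by
  unfold ck
  exact mul_mem mem_two (mul_mem (mul_mem (mem_sn i) (mem_sn j)) (sub_mem mem_two
    (mul_mem (pow_mem (hU i) 2) (inv_mem (hp i j)))))

include hp hU in
theorem mem_c2 (i j : Fin k) :
    c2 (fun p => algebraMap M L (N p)) (algebraMap M L e) x i j ∈ Cc M L := by
  unfold c2
  exact mul_mem (mul_mem (mem_sn i) (mem_sn j)) (add_mem mem_two (mul_mem (mul_mem mem_two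
    (add_mem (mul_mem (add_mem (mem_sn i) ⟨e, rfl⟩) (hU i))
      (mul_mem (add_mem (mem_sn j) ⟨e, rfl⟩) (hU j)))) (inv_mem (hp i j))))

include hU hW in
theorem mem_c1 (i : Fin k) :
    c1 (fun p => algebraMap M L (N p)) (algebraMap M L e) x i ∈ Cc M L := by
  unfold c1
  exact mul_mem (mul_mem (mem_sn i) (inv_mem (hW i))) (sub_mem (mul_mem (mem_N none)
    (mul_mem (add_mem (mem_sn i) ⟨e, rfl⟩) (mul_mem (hU i) (inv_mem (hW i)))))
    (mul_mem (mem_N none) (sub_mem mem_bb (hW i))))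

include hp hW in
theorem mem_AA (i j : Fin k) :
    AA (fun p => algebraMap M L (N p)) (algebraMap M L e) x i j ∈ Cc M L := by
  unfold AA
  exact mul_mem (mul_mem (mem_sn i) (mem_sn j)) (sub_mem (mul_mem mem_bb (inv_mem (hp i j)))
    (mul_mem (mem_N none) (mul_mem (add_mem (mul_mem (add_mem (pow_mem (hW i) 2)
      (pow_mem (hW j) 2)) (inv_mem (hp i j))) (one_mem _))
      (mul_mem (inv_mem (hW i)) (inv_mem (hW j))))))

include hp in
theorem ge_RR {w : ℤ} (hD : ∀ i j, i ≠ j → Ge O (-w) (Dl x i j)) {i j l : Fin k} (hil : i ≠ l)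
    (hjl : j ≠ l) (h0 : Dl x i j ≠ 0) (h1 : O.ord (Dl x i j) = -w) :
    Ge O (-w) (RR (fun p => algebraMap M L (N p)) x i j l) := by
  unfold RR tp
  refine cmul O (mul_mem (mul_mem (mul_mem (mul_mem (mem_sn i) (mem_sn j)) (mem_sn l))
    (mul_mem (add_mem (add_mem (hp i j) (hp i l)) (hp j l)) (mul_mem (mul_mem (inv_mem (hp i j))
    (inv_mem (hp i l))) (inv_mem (hp j l))))) (mul_mem mem_two (hp i j))) ?_
  have h2 : Ge O w (Dl x i j)⁻¹ := Or.inr (by rw [ord_inv O h0, h1]; omega)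
  have h3 := ((hD i l hil).mul (hD j l hjl)).mul h2
  rwa [show -w + -w + w = -w by ring] at h3

end mem

/-- the order of the square term -/
theorem ord_gg (hp : ∀ i j, pp x i j ∈ Cc M L) (hp0 : ∀ i j, pp x i j ≠ 0)
    (hn : ∀ i, N (some (i, true)) ≠ 0) {a b : Fin k}
    (h0 : Dl x a b ≠ 0) : gg (fun p => algebraMap M L (N p)) x a b ≠ 0 ∧
      O.ord (gg (fun p => algebraMap M L (N p)) x a b) = 2 * O.ord (Dl x a b) := by
  have hs : ∀ i, sn (fun p => algebraMap M L (N p)) i ≠ 0 := by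
    intro i
    rw [sn, Ne, map_eq_zero]
    exact hn i
  have h1 : gg (fun p => algebraMap M L (N p)) x a b =
      (sn (fun p => algebraMap M L (N p)) a * sn (fun p => algebraMap M L (N p)) b *
        (pp x a b)⁻¹) * Dl x a b ^ 2 := by
    rw [gg]; ring
  have h2 : sn (fun p => algebraMap M L (N p)) a * sn (fun p => algebraMap M L (N p)) b *
        (pp x a b)⁻¹ ≠ 0 := mul_ne_zero (mul_ne_zero (hs a) (hs b)) (inv_ne_zero (hp0 a b))
  have h3 : sn (fun p => algebraMap M L (N p)) a * sn (fun p => algebraMap M L (N p)) b *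
        (pp x a b)⁻¹ ∈ Cc M L := mul_mem (mul_mem (mem_sn a) (mem_sn b)) (inv_mem (hp a b))
  rw [h1]
  refine ⟨mul_ne_zero h2 (pow_ne_zero 2 h0), ?_⟩
  rw [O.ord_mul _ _ h2 (pow_ne_zero 2 h0), mem_ord O h3 h2, ord_sq O h0, zero_add]

/-- a square term with a pole is not constant -/
theorem gg_not_mem (hp : ∀ i j, pp x i j ∈ Cc M L) (hp0 : ∀ i j, pp x i j ≠ 0)
    (hn : ∀ i, N (some (i, true)) ≠ 0) {a b : Fin k}
    (h0 : Dl x a b ≠ 0) (h1 : O.ord (Dl x a b) < 0) :
    gg (fun p => algebraMap M L (N p)) x a b ∉ Cc M L := by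
  intro hmem
  obtain ⟨h2, h3⟩ := ord_gg O hp hp0 hn h0
  rw [mem_ord O hmem h2] at h3
  omega

/-- the contradiction for four U-blocks -/
theorem core4 {N : Pb 4 → M} (hN : ∀ p, N (fl p) = N p) {e : M} {x y : Pb 4 → Pb 4 → L}
    (h : Sys (fun p => algebraMap M L (N p)) (algebraMap M L e) x y)
    (hp : ∀ i j, pp x i j ∈ Cc M L) (hU : ∀ i, U x i ∈ Cc M L) (hW : ∀ i, W x i ∈ Cc M L)
    (hn : ∀ i, N (some (i, true)) ≠ 0) (hn' : ∀ i, N (some (i, true)) + e ≠ 0)
    (hb : ∑ i, (sn (fun p => algebraMap M L (N p)) i + algebraMap M L e) * (U x i)⁻¹ ≠ 0)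
    (hpole : ∃ i j : Fin 4, i ≠ j ∧ O.ord (X x i j) ≠ 0) : False := by
  have hCL : CharZero L := charZero_of_injective_algebraMap (algebraMap M L).injective
  have hN1 : ∀ p, (fun p => algebraMap M L (N p)) (fl p) = (fun p => algebraMap M L (N p)) p :=
    fun p => congrArg (algebraMap M L) (hN p)
  have hs : ∀ i, sn (fun p => algebraMap M L (N p)) i ≠ 0 := by
    intro i
    rw [sn, Ne, map_eq_zero]
    exact hn i
  have hs' : ∀ i, sn (fun p => algebraMap M L (N p)) i + algebraMap M L e ≠ 0 := by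
    intro i
    rw [sn, ← map_add, Ne, map_eq_zero]
    exact hn' i
  have hp0 : ∀ i j, pp x i j ≠ 0 := pp_ne h
  obtain ⟨w, a, b, hw, hab, hab0, habw, hD, hS⟩ := exists_w O (X_ne h) (Z_ne h) hp hpole
  obtain ⟨c, d, D⟩ := exists_cd a b hab
  have D1 := D
  obtain ⟨d1, d2, d3, d4, d5, d6⟩ := D1
  have hk := kdiff hN1 h D hs hs'
  have hkm : gg (fun p => algebraMap M L (N p)) x a b - gg (fun p => algebraMap M L (N p)) x c d
      ∈ Cc M L := by
    have h4 : (4 : L) ≠ 0 := by norm_num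
    have h1 : gg (fun p => algebraMap M L (N p)) x a b -
        gg (fun p => algebraMap M L (N p)) x c d = 4⁻¹ * (4 *
        (gg (fun p => algebraMap M L (N p)) x a b -
        gg (fun p => algebraMap M L (N p)) x c d)) := by
      rw [inv_mul_cancel_left₀ h4]
    rw [h1, hk]
    have mk := mem_kk (N := N) (e := e) hU hW
    have mc := mem_ck (N := N) hp hU
    exact mul_mem (inv_mem mem_four) (add_mem (add_mem (sub_mem (sub_mem (sub_mem (sub_mem
      (add_mem (mk a) (mk b)) (mk c)) (mk d)) (add_mem (add_mem (mc a b) (mc a c)) (mc a d)))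
      (add_mem (add_mem (mc b a) (mc b c)) (mc b d))) (add_mem (add_mem (mc c a) (mc c b))
      (mc c d))) (add_mem (add_mem (mc d a) (mc d b)) (mc d c)))
  obtain ⟨g0, g1⟩ := ord_gg O hp hp0 hn hab0
  -- the opposite edge
  have hcd0 : Dl x c d ≠ 0 := by
    intro h0
    have h1 : gg (fun p => algebraMap M L (N p)) x c d = 0 := by
      rw [gg, h0]; ring
    rw [h1, sub_zero] at hkm
    exact gg_not_mem O hp hp0 hn hab0 (by omega) hkm
  obtain ⟨g2, g3⟩ := ord_gg O hp hp0 hn hcd0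
  have hcdw : O.ord (Dl x c d) = -w := by
    have h1 := (hD c d d6).resolve_left hcd0
    have h2 : gg (fun p => algebraMap M L (N p)) x a b =
      (gg (fun p => algebraMap M L (N p)) x a b - gg (fun p => algebraMap M L (N p)) x c d) +
        gg (fun p => algebraMap M L (N p)) x c d := by ring
    rcases eq_or_ne (gg (fun p => algebraMap M L (N p)) x a b -
      gg (fun p => algebraMap M L (N p)) x c d) 0 with h3 | h3
    · rw [h3, zero_add] at h2
      rw [h2, g3] at g1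
      omega
    · have h4 := O.ord_add _ _ h3 g2 (by rw [← h2]; exact g0)
      rw [← h2, mem_ord O hkm h3, g1, g3, min_le_iff] at h4
      omega
  have hid := main_id hN1 h D hs hab0 hcd0
  set S : Pb 4 → L := fun p => algebraMap M L (N p) with hSd
  set E : L := algebraMap M L e with hE
  have hbt : 2 * (((sn S a + E) * (U x a)⁻¹ + (sn S b + E) * (U x b)⁻¹) +
      ((sn S c + E) * (U x c)⁻¹ + (sn S d + E) * (U x d)⁻¹)) * gg S x a b =
      (c2 S E x a b + c2 S E x a c + c2 S E x a d + c2 S E x b c + c2 S E x b d + c2 S E x c d +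
      (c1 S E x a + c1 S E x b + c1 S E x c + c1 S E x d) -
      8 * (((sn S a + E) * (U x a)⁻¹ + (sn S b + E) * (U x b)⁻¹) * (sn S a * sn S b)) -
      8 * (((sn S c + E) * (U x c)⁻¹ + (sn S d + E) * (U x d)⁻¹) * (sn S c * sn S d)) +
      2 * ((sn S c + E) * (U x c)⁻¹ + (sn S d + E) * (U x d)⁻¹) * (gg S x a b - gg S x c d)) -
      (AA S E x a c * Sg x a c + AA S E x a d * Sg x a d + AA S E x b c * Sg x b c +
        AA S E x b d * Sg x b d) -
      (RR S x a b c + RR S x a b d + RR S x c d a + RR S x c d b) := by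
    linear_combination hid
  have m1 := mem_be (N := N) (e := e) (x := x) hU
  have m2 := mem_c2 (N := N) (e := e) hp hU
  have m3 := mem_c1 (N := N) (e := e) hU hW
  have m4 := mem_AA (N := N) (e := e) hp hW
  rw [← hSd, ← hE] at m1 m2 m3 m4
  have m5 : ∀ i, sn S i ∈ Cc M L := fun i => mem_sn i
  have r1 : Ge O (-w) (RR S x a b c) := ge_RR O hp hD d2 d4 hab0 habw
  have r2 : Ge O (-w) (RR S x a b d) := ge_RR O hp hD d3 d5 hab0 habw
  have r3 : Ge O (-w) (RR S x c d a) := ge_RR O hp hD d2.symm d3.symm hcd0 hcdw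
  have r4 : Ge O (-w) (RR S x c d b) := ge_RR O hp hD d4.symm d5.symm hcd0 hcdw
  have hge : Ge O (-w) (2 * (((sn S a + E) * (U x a)⁻¹ + (sn S b + E) * (U x b)⁻¹) +
      ((sn S c + E) * (U x c)⁻¹ + (sn S d + E) * (U x d)⁻¹)) * gg S x a b) := by
    rw [hbt]
    refine ge_sub O (ge_sub O (mem_ge' O (by omega) ?_) ?_) ?_
    · exact add_mem (sub_mem (sub_mem (add_mem (add_mem (add_mem (add_mem (add_mem (add_mem
        (m2 a b) (m2 a c)) (m2 a d)) (m2 b c)) (m2 b d)) (m2 c d)) (add_mem (add_mem (add_mem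
        (m3 a) (m3 b)) (m3 c)) (m3 d))) (mul_mem mem_eight (mul_mem (add_mem (m1 a) (m1 b))
        (mul_mem (m5 a) (m5 b))))) (mul_mem mem_eight (mul_mem (add_mem (m1 c) (m1 d))
        (mul_mem (m5 c) (m5 d))))) (mul_mem (mul_mem mem_two (add_mem (m1 c) (m1 d))) hkm)
    · exact (((cmul O (m4 a c) (hS a c d2)).add (cmul O (m4 a d) (hS a d d3))).add
        (cmul O (m4 b c) (hS b c d4))).add (cmul O (m4 b d) (hS b d d5))
    · exact ((r1.add r2).add r3).add r4
  have hbt0 : 2 * (((sn S a + E) * (U x a)⁻¹ + (sn S b + E) * (U x b)⁻¹) +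
      ((sn S c + E) * (U x c)⁻¹ + (sn S d + E) * (U x d)⁻¹)) ≠ 0 := by
    refine mul_ne_zero two_ne_zero ?_
    rw [sum4 D] at hb
    intro h0
    apply hb
    rw [← h0]
    ring
  have hbtm : 2 * (((sn S a + E) * (U x a)⁻¹ + (sn S b + E) * (U x b)⁻¹) +
      ((sn S c + E) * (U x c)⁻¹ + (sn S d + E) * (U x d)⁻¹)) ∈ Cc M L :=
    mul_mem mem_two (add_mem (add_mem (m1 a) (m1 b)) (add_mem (m1 c) (m1 d)))
  have hfin := hge.resolve_left (mul_ne_zero hbt0 g0)
  rw [O.ord_mul _ _ hbt0 g0, mem_ord O hbtm hbt0, g1, habw] at hfin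
  omega

/-- the contradiction for three U-blocks -/
theorem core3 {N : Pb 3 → M} (hN : ∀ p, N (fl p) = N p) {e : M} {x y : Pb 3 → Pb 3 → L}
    (h : Sys (fun p => algebraMap M L (N p)) (algebraMap M L e) x y)
    (hp : ∀ i j, pp x i j ∈ Cc M L) (hU : ∀ i, U x i ∈ Cc M L) (hW : ∀ i, W x i ∈ Cc M L)
    (hn : ∀ i, N (some (i, true)) ≠ 0) (hn' : ∀ i, N (some (i, true)) + e ≠ 0)
    (hpole : ∃ i j : Fin 3, i ≠ j ∧ O.ord (X x i j) ≠ 0) : False := by
  have hCL : CharZero L := charZero_of_injective_algebraMap (algebraMap M L).injective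
  have hN1 : ∀ p, (fun p => algebraMap M L (N p)) (fl p) = (fun p => algebraMap M L (N p)) p :=
    fun p => congrArg (algebraMap M L) (hN p)
  have hs : ∀ i, sn (fun p => algebraMap M L (N p)) i ≠ 0 := by
    intro i
    rw [sn, Ne, map_eq_zero]
    exact hn i
  have hs' : ∀ i, sn (fun p => algebraMap M L (N p)) i + algebraMap M L e ≠ 0 := by
    intro i
    rw [sn, ← map_add, Ne, map_eq_zero]
    exact hn' i
  have hp0 : ∀ i j, pp x i j ≠ 0 := pp_ne h
  obtain ⟨w, a, b, hw, hab, hab0, habw, hD, hS⟩ := exists_w O (X_ne h) (Z_ne h) hp hpole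
  obtain ⟨c, d2, d4⟩ := exists_c3 a b hab
  have hk := kdiff3 hN1 h hab d2 d4 hs hs'
  refine gg_not_mem O hp hp0 hn hab0 (by omega) ?_
  have h4 : (4 : L) ≠ 0 := by norm_num
  have h1 : gg (fun p => algebraMap M L (N p)) x a b = 4⁻¹ * (4 *
      gg (fun p => algebraMap M L (N p)) x a b) := by
    rw [inv_mul_cancel_left₀ h4]
  rw [h1, hk]
  have mk := mem_kk (N := N) (e := e) hU hW
  have mc := mem_ck (N := N) hp hU
  exact mul_mem (inv_mem mem_four) (add_mem (sub_mem (sub_mem (sub_mem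
      (add_mem (mk a) (mk b)) (mk c)) (add_mem (mc a b) (mc a c)))
      (add_mem (mc b a) (mc b c))) (add_mem (mc c a) (mc c b)))

/-- the contradiction for two U-blocks -/
theorem core2 {N : Pb 2 → M} (hN : ∀ p, N (fl p) = N p) {e : M} {x y : Pb 2 → Pb 2 → L}
    (h : Sys (fun p => algebraMap M L (N p)) (algebraMap M L e) x y)
    (hp : ∀ i j, pp x i j ∈ Cc M L) (hU : ∀ i, U x i ∈ Cc M L) (hW : ∀ i, W x i ∈ Cc M L)
    (hn : ∀ i, N (some (i, true)) ≠ 0) (hn' : ∀ i, N (some (i, true)) + e ≠ 0)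
    (hpole : ∃ i j : Fin 2, i ≠ j ∧ O.ord (X x i j) ≠ 0) : False := by
  have hCL : CharZero L := charZero_of_injective_algebraMap (algebraMap M L).injective
  have hN1 : ∀ p, (fun p => algebraMap M L (N p)) (fl p) = (fun p => algebraMap M L (N p)) p :=
    fun p => congrArg (algebraMap M L) (hN p)
  have hs : ∀ i, sn (fun p => algebraMap M L (N p)) i ≠ 0 := by
    intro i
    rw [sn, Ne, map_eq_zero]
    exact hn i
  have hs' : ∀ i, sn (fun p => algebraMap M L (N p)) i + algebraMap M L e ≠ 0 := by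
    intro i
    rw [sn, ← map_add, Ne, map_eq_zero]
    exact hn' i
  have hp0 : ∀ i j, pp x i j ≠ 0 := pp_ne h
  obtain ⟨w, a, b, hw, hab, hab0, habw, hD, hS⟩ := exists_w O (X_ne h) (Z_ne h) hp hpole
  have hk := kdiff2 hN1 h hab hs hs'
  refine gg_not_mem O hp hp0 hn hab0 (by omega) ?_
  have h1 : gg (fun p => algebraMap M L (N p)) x a b = 2⁻¹ * (2 *
      gg (fun p => algebraMap M L (N p)) x a b) := by
    rw [inv_mul_cancel_left₀ two_ne_zero]
  rw [h1, hk]
  exact mul_mem (inv_mem mem_two) (sub_mem (mem_kk (N := N) (e := e) hU hW a)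
    (mem_ck (N := N) hp hU a b))

/-- the contradiction for at most four U-blocks -/
theorem core {k : ℕ} (hk : k ≤ 4) {N : Pb k → M} (hN : ∀ p, N (fl p) = N p) {e : M}
    {x y : Pb k → Pb k → L}
    (h : Sys (fun p => algebraMap M L (N p)) (algebraMap M L e) x y)
    (hp : ∀ i j, pp x i j ∈ Cc M L) (hU : ∀ i, U x i ∈ Cc M L) (hW : ∀ i, W x i ∈ Cc M L)
    (hn : ∀ i, N (some (i, true)) ≠ 0) (hn' : ∀ i, N (some (i, true)) + e ≠ 0)
    (hb : ∑ i, (sn (fun p => algebraMap M L (N p)) i + algebraMap M L e) * (U x i)⁻¹ ≠ 0)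
    (hpole : ∃ i j : Fin k, i ≠ j ∧ O.ord (X x i j) ≠ 0) : False := by
  obtain ⟨i, j, hij, h0⟩ := hpole
  have hcases : k = 0 ∨ k = 1 ∨ k = 2 ∨ k = 3 ∨ k = 4 := by omega
  rcases hcases with rfl | rfl | rfl | rfl | rfl
  · exact i.elim0
  · exact hij (Subsingleton.elim i j)
  · exact core2 O hN h hp hU hW hn hn' ⟨i, j, hij, h0⟩
  · exact core3 O hN h hp hU hW hn hn' ⟨i, j, hij, h0⟩
  · exact core4 O hN h hp hU hW hn hn' hb ⟨i, j, hij, h0⟩

end

end Pool.Agent.H98.BC
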