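import Pool.Agent.H43.BC.Stmt

/-!
# Module Count: few vectors of block sizes have a relation, uniformly in `m`

The exceptional set is the union over finitely many coefficient vectors of the zero sets in the box
`[1, X]^k` of a nonzero polynomial of degree at most 2 (Schwartz-Zippel).
-/

set_option autoImplicit false

namespace Pool.Agent.H98.BC

open Pool.Agent.H43.BC

section

open MvPolynomial

/-- the polynomial of a relation -/
noncomputable def relPoly {k : ℕ} (e m : ℤ) (w : Fin k → Fin k → ℤ) (v t : Fin k → ℤ) :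
    MvPolynomial (Fin k) ℤ :=
  (∑ i, ∑ j ∈ Finset.Ioi i, C (w i j) * (X i * X j)) + (∑ i, C (v i) * (X i * (X i + C e))) +
    ∑ i, C (t i) * (X i * C m)

theorem eval_relPoly {k : ℕ} (e m : ℤ) (w : Fin k → Fin k → ℤ) (v t : Fin k → ℤ)
    (n : Fin k → ℤ) :
    eval n (relPoly e m w v t) = (∑ i, ∑ j ∈ Finset.Ioi i, w i j * (n i * n j)) +
      (∑ i, v i * (n i * (n i + e))) + ∑ i, t i * (n i * m) := by
  simp [relPoly, map_sum]

theorem relPoly_eq_zero {k : ℕ} {e m : ℤ} {w : Fin k → Fin k → ℤ} {v t : Fin k → ℤ}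
    (h : relPoly e m w v t = 0) :
    (∀ i j, i < j → w i j = 0) ∧ (∀ i, v i = 0) ∧ (m ≠ 0 → ∀ i, t i = 0) := by
  have hev : ∀ n : Fin k → ℤ, (∑ i, ∑ j ∈ Finset.Ioi i, w i j * (n i * n j)) +
      (∑ i, v i * (n i * (n i + e))) + ∑ i, t i * (n i * m) = 0 := by
    intro n
    rw [← eval_relPoly, h, map_zero]
  have h1 : ∀ (a : ℤ) (i₀ : Fin k), v i₀ * (a * (a + e)) + t i₀ * (a * m) = 0 := by
    intro a i₀
    have h2 := hev (fun i => if i = i₀ then a else 0)
    have h3 : (∑ i, ∑ j ∈ Finset.Ioi i, w i j * ((if i = i₀ then a else 0) *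
        (if j = i₀ then a else 0))) = 0 := by
      refine Finset.sum_eq_zero fun i _ => Finset.sum_eq_zero fun j hj => ?_
      rw [Finset.mem_Ioi] at hj
      by_cases h4 : i = i₀
      · have h5 : ¬ j = i₀ := fun h5 => by rw [h4, h5] at hj; exact lt_irrefl _ hj
        rw [if_neg h5, mul_zero, mul_zero]
      · rw [if_neg h4, zero_mul, mul_zero]
    have h4 : (∑ i, v i * ((if i = i₀ then a else 0) * ((if i = i₀ then a else 0) + e))) =
        v i₀ * (a * (a + e)) := by
      rw [Finset.sum_eq_single i₀]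
      · rw [if_pos rfl]
      · intro i _ hi
        rw [if_neg hi]; ring
      · intro hi; exact absurd (Finset.mem_univ _) hi
    have h5 : (∑ i, t i * ((if i = i₀ then a else 0) * m)) = t i₀ * (a * m) := by
      rw [Finset.sum_eq_single i₀]
      · rw [if_pos rfl]
      · intro i _ hi
        rw [if_neg hi]; ring
      · intro hi; exact absurd (Finset.mem_univ _) hi
    rw [h3, h4, h5, zero_add] at h2
    exact h2
  have hv : ∀ i, v i = 0 := by
    intro i
    have h2 := h1 1 i
    have h3 := h1 (-1) i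
    have h4 : 2 * v i = 0 := by linear_combination h2 + h3
    omega
  have ht : ∀ i, t i * m = 0 := by
    intro i
    have h2 := h1 1 i
    rw [hv i] at h2
    linear_combination h2
  refine ⟨fun i₀ j₀ hij => ?_, hv, fun hm i => (mul_eq_zero.1 (ht i)).resolve_right hm⟩
  have h2 := hev (fun i => if i = i₀ ∨ i = j₀ then 1 else 0)
  have h3 : (∑ i, v i * ((if i = i₀ ∨ i = j₀ then (1 : ℤ) else 0) *
      ((if i = i₀ ∨ i = j₀ then 1 else 0) + e))) = 0 :=
    Finset.sum_eq_zero fun i _ => by rw [hv i, zero_mul]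
  have h4 : (∑ i, t i * ((if i = i₀ ∨ i = j₀ then (1 : ℤ) else 0) * m)) = 0 :=
    Finset.sum_eq_zero fun i _ => by
      have := ht i
      linear_combination (if i = i₀ ∨ i = j₀ then (1 : ℤ) else 0) * this
  rw [h3, h4, add_zero, add_zero, Finset.sum_eq_single i₀, Finset.sum_eq_single j₀] at h2
  · simpa using h2
  · intro j hj hne
    have hji : j ≠ i₀ := by
      rintro rfl
      simp at hj
    simp [hji, hne]
  · intro hj
    exact absurd (Finset.mem_Ioi.mpr hij) hj
  · intro i _ hi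
    refine Finset.sum_eq_zero fun j hj => ?_
    rw [Finset.mem_Ioi] at hj
    by_cases hij' : i = j₀
    · subst hij'
      have h2 : j ≠ i₀ := (hij.trans hj).ne'
      simp [h2, hj.ne']
    · simp [hi, hij']
  · intro hi
    exact absurd (Finset.mem_univ _) hi

theorem totalDegree_relPoly {k : ℕ} (e m : ℤ) (w : Fin k → Fin k → ℤ) (v t : Fin k → ℤ) :
    (relPoly e m w v t).totalDegree ≤ 2 := by
  have h1 : ∀ i : Fin k, (X i * C m : MvPolynomial (Fin k) ℤ).totalDegree ≤ 1 := fun i => by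
    refine (totalDegree_mul _ _).trans ?_
    rw [totalDegree_X, totalDegree_C]
  have h2 : ∀ i : Fin k, (X i + C e : MvPolynomial (Fin k) ℤ).totalDegree ≤ 1 := fun i => by
    refine (totalDegree_add _ _).trans ?_
    rw [totalDegree_X, totalDegree_C]
    norm_num
  unfold relPoly
  refine (totalDegree_add _ _).trans (max_le ((totalDegree_add _ _).trans (max_le ?_ ?_)) ?_)
  · refine totalDegree_finsetSum_le fun i _ => totalDegree_finsetSum_le fun j _ => ?_
    refine (totalDegree_mul _ _).trans ?_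
    rw [totalDegree_C, zero_add]
    refine (totalDegree_mul _ _).trans ?_
    rw [totalDegree_X, totalDegree_X]
  · refine totalDegree_finsetSum_le fun i _ => ?_
    refine (totalDegree_mul _ _).trans ?_
    rw [totalDegree_C, zero_add]
    refine (totalDegree_mul _ _).trans ?_
    rw [totalDegree_X]
    have := h2 i
    omega
  · refine totalDegree_finsetSum_le fun i _ => ?_
    refine (totalDegree_mul _ _).trans ?_
    rw [totalDegree_C, zero_add]
    have := h1 i
    omega

theorem card_zero_le {k : ℕ} (hk : 0 < k) (e m : ℤ) (w : Fin k → Fin k → ℤ) (v t : Fin k → ℤ)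
    (h : relPoly e m w v t ≠ 0) (X : ℕ) :
    ((Fintype.piFinset fun _ : Fin k => Finset.Icc 1 X).filter fun n : Fin k → ℕ =>
      (∑ i, ∑ j ∈ Finset.Ioi i, w i j * ((n i : ℤ) * n j)) +
      (∑ i, v i * ((n i : ℤ) * (n i + e))) + (∑ i, t i * ((n i : ℤ) * m)) = 0).card
        ≤ 2 * X ^ (k - 1) := by
  rcases Nat.eq_zero_or_pos X with hX | hX
  · subst hX
    rw [Finset.filter_eq_empty_iff.mpr]
    · simp
    · intro n hn
      rw [Fintype.mem_piFinset] at hn
      have := hn ⟨0, hk⟩
      simp at this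
  have hS : (Finset.Icc (1 : ℤ) X).card = X := by simp
  have h1 := schwartz_zippel_totalDegree h (Finset.Icc (1 : ℤ) X)
  rw [hS] at h1
  have hXq : (0 : ℚ≥0) < X := by exact_mod_cast hX
  rw [div_le_iff₀ (by positivity)] at h1
  have h2 : ((relPoly e m w v t).totalDegree : ℚ≥0) / X * X ^ k ≤ 2 * X ^ (k - 1) := by
    have h3 : ((relPoly e m w v t).totalDegree : ℚ≥0) ≤ 2 := by
      exact_mod_cast totalDegree_relPoly e m w v t
    obtain ⟨l, rfl⟩ : ∃ l, k = l + 1 := ⟨k - 1, by omega⟩
    rw [pow_succ, Nat.add_sub_cancel, mul_comm ((X : ℚ≥0) ^ l), ← mul_assoc,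
      div_mul_cancel₀ _ hXq.ne']
    gcongr
  have h4 := h1.trans h2
  have h5 : ((Fintype.piFinset fun _ : Fin k => Finset.Icc (1 : ℤ) X).filter fun f =>
      eval f (relPoly e m w v t) = 0).card ≤ 2 * X ^ (k - 1) := by exact_mod_cast h4
  refine le_trans ?_ h5
  refine Finset.card_le_card_of_injOn (fun n i => (n i : ℤ)) ?_ ?_
  · intro n hn
    simp only [Finset.coe_filter, Fintype.mem_piFinset, Finset.mem_Icc, Set.mem_ofPred_eq] at hn ⊢
    refine ⟨fun i => ?_, ?_⟩
    · have := hn.1 i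
      constructor
      · exact_mod_cast this.1
      · exact_mod_cast this.2
    · rw [eval_relPoly]
      exact hn.2
  · intro n _ m _ hnm
    funext i
    have h6 : ((n i : ℕ) : ℤ) = ((m i : ℕ) : ℤ) := congrFun hnm i
    exact_mod_cast h6

end

open Classical in
/-- The number of exceptional vectors of block sizes, for both series and uniformly in `m`. -/
theorem countB (k B : ℕ) : ∃ C : ℕ, ∀ e : ℤ, e = 1 ∨ e = -1 → ∀ m X : ℕ,
    ((Fintype.piFinset fun _ : Fin k => Finset.Icc 1 X).filter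
      fun n => ¬ Stmt.NoRelation e B n m).card ≤ C * X ^ (k - 1) := by
  let I : Finset ℤ := Finset.Icc (-(B : ℤ)) B
  let W : Finset ((Fin k → Fin k → ℤ) × (Fin k → ℤ) × (Fin k → ℤ)) :=
    (Fintype.piFinset fun _ : Fin k => Fintype.piFinset fun _ : Fin k => I) ×ˢ
      ((Fintype.piFinset fun _ : Fin k => I) ×ˢ (Fintype.piFinset fun _ : Fin k => I))
  refine ⟨W.card * 2, fun e _ m X => ?_⟩
  rcases Nat.eq_zero_or_pos k with hk | hk
  · subst hk
    rw [Finset.filter_eq_empty_iff.mpr]
    · simp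
    · intro n _
      rw [not_not]
      intro w v t _ _ _ _
      exact ⟨fun i => i.elim0, fun i => i.elim0, fun _ i => i.elim0⟩
  have hsub : ((Fintype.piFinset fun _ : Fin k => Finset.Icc 1 X).filter
      fun n => ¬ Stmt.NoRelation e B n m) ⊆
      (W.filter fun q => relPoly e m q.1 q.2.1 q.2.2 ≠ 0).biUnion fun q =>
        (Fintype.piFinset fun _ : Fin k => Finset.Icc 1 X).filter
        fun n : Fin k → ℕ => (∑ i, ∑ j ∈ Finset.Ioi i, q.1 i j * ((n i : ℤ) * n j)) +
      (∑ i, q.2.1 i * ((n i : ℤ) * (n i + e))) + (∑ i, q.2.2 i * ((n i : ℤ) * m)) = 0 := by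
    intro n hn
    rw [Finset.mem_filter] at hn
    obtain ⟨hn1, hn2⟩ := hn
    unfold Stmt.NoRelation at hn2
    push Not at hn2
    obtain ⟨w, v, t, hw, hv, ht, h0, h1⟩ := hn2
    rw [Finset.mem_biUnion]
    refine ⟨(w, v, t), ?_, ?_⟩
    · rw [Finset.mem_filter]
      refine ⟨?_, fun h2 => ?_⟩
      · simp only [W, I, Finset.mem_product, Fintype.mem_piFinset, Finset.mem_Icc]
        exact ⟨fun i j => abs_le.mp (hw i j), fun i => abs_le.mp (hv i),
          fun i => abs_le.mp (ht i)⟩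
      · obtain ⟨a1, a2, a3⟩ := relPoly_eq_zero h2
        obtain ⟨hm, i, hi⟩ := h1 a1 a2
        exact hi (a3 (by exact_mod_cast hm) i)
    · rw [Finset.mem_filter]
      exact ⟨hn1, h0⟩
  refine (Finset.card_le_card hsub).trans (Finset.card_biUnion_le.trans ?_)
  refine (Finset.sum_le_sum (g := fun _ => 2 * X ^ (k - 1)) fun q hq => ?_).trans ?_
  · rw [Finset.mem_filter] at hq
    exact card_zero_le hk e m q.1 q.2.1 q.2.2 hq.2 X
  · rw [Finset.sum_const, smul_eq_mul, mul_assoc]
    exact Nat.mul_le_mul_right _ (Finset.card_filter_le _ _)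

/-- The same with `Set.ncard`. -/
theorem countB' (k B : ℕ) : ∃ C : ℕ, ∀ e : ℤ, e = 1 ∨ e = -1 → ∀ m X : ℕ,
    {n : Fin k → ℕ | (∀ i, 1 ≤ n i ∧ n i ≤ X) ∧ ¬ Stmt.NoRelation e B n m}.ncard
      ≤ C * X ^ (k - 1) := by
  classical
  obtain ⟨C, hC⟩ := countB k B
  refine ⟨C, fun e he m X => ?_⟩
  have h1 : {n : Fin k → ℕ | (∀ i, 1 ≤ n i ∧ n i ≤ X) ∧ ¬ Stmt.NoRelation e B n m} =
      (((Fintype.piFinset fun _ : Fin k => Finset.Icc 1 X).filter
        fun n => ¬ Stmt.NoRelation e B n m : Finset (Fin k → ℕ)) : Set (Fin k → ℕ)) := by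
    ext n
    simp only [Finset.coe_filter, Fintype.mem_piFinset, Finset.mem_Icc]
  rw [h1, Set.ncard_coe_finset]
  convert hC e he m X

end Pool.Agent.H98.BC
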