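import Pool.Agent.H98.BC.Vol

/-!
# Module Eqs: the equations in the unknowns of the four kinds of modules

`X i j`, `Z i j` (different U-blocks), `U i` (within a U-block), `W i` (a U-block and the block 0).
`e1`: difference of the equations of `X i j` and `Z i j`; `e2`: their sum; `eK`: equation of `U i`;
`eW`: equation of `W i`.
-/

set_option autoImplicit false

namespace Pool.Agent.H98.BC

open Pool.Agent.H43.BC

section brackets

variable {L : Type*} [Field L]

theorem bracket1 [CharZero L] (Xa Za Xb Zb Xc Zc : L) (h1 : Xa ≠ 0) (h2 : Za ≠ 0)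
    (h3 : Xb ≠ 0) (h4 : Zb ≠ 0) (h5 : Xc ≠ 0) (h6 : Zc ≠ 0) :
    Xa⁻¹ * ((Xb ^ 2 + Xc ^ 2 - Xa ^ 2) * (Xb⁻¹ * Xc⁻¹) +
        (Zb ^ 2 + Zc ^ 2 - Xa ^ 2) * (Zb⁻¹ * Zc⁻¹)) -
      Za⁻¹ * ((Xb ^ 2 + Zc ^ 2 - Za ^ 2) * (Xb⁻¹ * Zc⁻¹) +
        (Zb ^ 2 + Xc ^ 2 - Za ^ 2) * (Zb⁻¹ * Xc⁻¹)) =
      -((Xa * Za + Xb * Zb + Xc * Zc) * ((Xa * Za)⁻¹ * (Xb * Zb)⁻¹ * (Xc * Zc)⁻¹) / 2 *
        ((Xa - Za) * (Xb + Zb) * (Xc + Zc) + (Xa + Za) * (Xb - Zb) * (Xc - Zc))) := by
  field_simp
  ring

theorem bracket2 (Xa Za Xb Zb Xc Zc : L) (h1 : Xa ≠ 0) (h2 : Za ≠ 0)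
    (h3 : Xb ≠ 0) (h4 : Zb ≠ 0) (h5 : Xc ≠ 0) (h6 : Zc ≠ 0) :
    Xa⁻¹ * ((Xb ^ 2 + Xc ^ 2 - Xa ^ 2) * (Xb⁻¹ * Xc⁻¹) +
        (Zb ^ 2 + Zc ^ 2 - Xa ^ 2) * (Zb⁻¹ * Zc⁻¹)) +
      Za⁻¹ * ((Xb ^ 2 + Zc ^ 2 - Za ^ 2) * (Xb⁻¹ * Zc⁻¹) +
        (Zb ^ 2 + Xc ^ 2 - Za ^ 2) * (Zb⁻¹ * Xc⁻¹)) =
      (Xb * Zb + Xc * Zc - Xa * Za) * ((Xa * Za)⁻¹ * (Xb * Zb)⁻¹ * (Xc * Zc)⁻¹) *
        (Xa * Xb * Xc + Xa * Zb * Zc + Za * Xb * Zc + Za * Zb * Xc) := by
  field_simp
  ring

end brackets

variable {k : ℕ} {L : Type*} [Field L]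

/-- the unknown of the roots `ε_a - ε_b` -/
def X (x : Pb k → Pb k → L) (i j : Fin k) : L := x (some (i, true)) (some (j, true))
/-- the unknown of the roots `ε_a + ε_b` -/
def Z (x : Pb k → Pb k → L) (i j : Fin k) : L := x (some (i, true)) (some (j, false))
/-- the unknown of a U-block -/
def U (x : Pb k → Pb k → L) (i : Fin k) : L := x (some (i, true)) (some (i, false))
/-- the unknown of a U-block and the block 0 -/
def W (x : Pb k → Pb k → L) (i : Fin k) : L := x (some (i, true)) none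
/-- block size -/
def sn (N : Pb k → L) (i : Fin k) : L := N (some (i, true))
/-- the constant `b` -/
def bb (N : Pb k → L) (e : L) : L := 2 * ((∑ c, N c) + 2 * e)

theorem sum_pb {A : Type*} [AddCommMonoid A] (F : Pb k → A) :
    ∑ c, F c = F none + ∑ l, (F (some (l, true)) + F (some (l, false))) := by
  rw [Fintype.sum_option, Fintype.sum_prod_type]
  simp only [Fintype.sum_bool]

theorem sum_two {A : Type*} [AddCommMonoid A] (G : Fin k → A) {i j : Fin k} (h : i ≠ j) :
    ∑ l, G l = (∑ l, if l = i ∨ l = j then 0 else G l) + (G i + G j) := by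
  classical
  have h1 : ∀ l, G l = (if l = i ∨ l = j then 0 else G l) + ((if l = i then G i else 0) +
      (if l = j then G j else 0)) := by
    intro l
    by_cases h2 : l = i
    · subst h2
      simp [h]
    · by_cases h3 : l = j
      · subst h3
        simp [h2]
      · simp [h2, h3]
  rw [Finset.sum_congr rfl fun l _ => h1 l, Finset.sum_add_distrib, Finset.sum_add_distrib]
  simp

theorem sum_one {A : Type*} [AddCommMonoid A] (G : Fin k → A) (i : Fin k) :
    ∑ l, G l = (∑ l, if l = i then 0 else G l) + G i := by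
  classical
  have h1 : ∀ l, G l = (if l = i then 0 else G l) + (if l = i then G i else 0) := by
    intro l
    by_cases h2 : l = i
    · subst h2; simp
    · simp [h2]
  rw [Finset.sum_congr rfl fun l _ => h1 l, Finset.sum_add_distrib]
  simp

section

variable {N : Pb k → L} (hN : ∀ p, N (fl p) = N p) {e : L} {x y : Pb k → Pb k → L}
  (h : Sys N e x y)

include h

theorem y_eq (a b : Pb k) : y a b = (x a b)⁻¹ := eq_inv_of_mul_eq_one_right (h.inv a b)

theorem x_ne (a b : Pb k) : x a b ≠ 0 := left_ne_zero_of_mul_eq_one (h.inv a b)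

theorem X_ne (i j : Fin k) : X x i j ≠ 0 := x_ne h _ _
theorem Z_ne (i j : Fin k) : Z x i j ≠ 0 := x_ne h _ _
theorem U_ne (i : Fin k) : U x i ≠ 0 := x_ne h _ _
theorem W_ne (i : Fin k) : W x i ≠ 0 := x_ne h _ _

theorem X_symm (i j : Fin k) : X x i j = X x j i := h.symm _ _

theorem x_ft (i j : Fin k) : x (some (i, false)) (some (j, true)) = Z x i j := by
  have := h.flip (some (i, true)) (some (j, false))
  exact this

theorem x_ff (i j : Fin k) : x (some (i, false)) (some (j, false)) = X x i j := by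
  have := h.flip (some (i, true)) (some (j, true))
  exact this

theorem x_fn (i : Fin k) : x (some (i, false)) none = W x i := by
  have := h.flip (some (i, true)) none
  exact this

theorem x_nt (i : Fin k) : x none (some (i, true)) = W x i := h.symm _ _

theorem x_nf (i : Fin k) : x none (some (i, false)) = W x i := by
  rw [h.symm, x_fn h]

theorem Z_symm (i j : Fin k) : Z x i j = Z x j i := by
  rw [← x_ft h j i, h.symm]
  rfl

end

/-- the summand of a third U-block in the equation of `X i j` -/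
def TX (x : Pb k → Pb k → L) (i j l : Fin k) : L :=
  (X x i l ^ 2 + X x j l ^ 2 - X x i j ^ 2) * ((X x i l)⁻¹ * (X x j l)⁻¹) +
    (Z x i l ^ 2 + Z x j l ^ 2 - X x i j ^ 2) * ((Z x i l)⁻¹ * (Z x j l)⁻¹)

/-- the summand of a third U-block in the equation of `Z i j` -/
def TZ (x : Pb k → Pb k → L) (i j l : Fin k) : L :=
  (X x i l ^ 2 + Z x j l ^ 2 - Z x i j ^ 2) * ((X x i l)⁻¹ * (Z x j l)⁻¹) +
    (Z x i l ^ 2 + X x j l ^ 2 - Z x i j ^ 2) * ((Z x i l)⁻¹ * (X x j l)⁻¹)

section

variable {N : Pb k → L} (hN : ∀ p, N (fl p) = N p) {e : L} {x y : Pb k → Pb k → L}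
  (h : Sys N e x y)

include hN in
omit [Field L] in
theorem N_false (i : Fin k) : N (some (i, false)) = sn N i := hN (some (i, true))

include hN h

theorem eqX {i j : Fin k} (hij : i ≠ j) (hi : sn N i ≠ 0) (hj : sn N j ≠ 0) :
    bb N e - X x i j = N none * ((W x i ^ 2 + W x j ^ 2 - X x i j ^ 2) *
        ((W x i)⁻¹ * (W x j)⁻¹)) +
      (∑ l, if l = i ∨ l = j then 0 else sn N l * TX x i j l) +
      ((sn N i + e) * ((U x i ^ 2 + Z x i j ^ 2 - X x i j ^ 2) * ((U x i)⁻¹ * (Z x i j)⁻¹)) +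
        (sn N j + e) * ((Z x i j ^ 2 + U x j ^ 2 - X x i j ^ 2) *
          ((Z x i j)⁻¹ * (U x j)⁻¹))) := by
  have hab : (some (i, true) : Pb k) ≠ some (j, true) := by
    intro h0
    exact hij (by simpa using h0)
  have h1 := h.eqn _ _ hab
  set F : Pb k → L := fun c => if c = some (i, true) ∨ c = some (j, true) then 0 else
      dm N e (some (i, true)) (some (j, true)) * wt N e (some (i, true)) (some (j, true)) c *
      (x (some (i, true)) c ^ 2 + x (some (j, true)) c ^ 2 -
        x (some (i, true)) (some (j, true)) ^ 2) *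
      (y (some (i, true)) c * y (some (j, true)) c) with hF
  have hdm : dm N e (some (i, true)) (some (j, true)) = sn N i * sn N j := by
    simp [dm, sn]
  have f0 : F none = sn N i * sn N j * (N none * ((W x i ^ 2 + W x j ^ 2 - X x i j ^ 2) *
        ((W x i)⁻¹ * (W x j)⁻¹))) := by
    simp only [hF, hdm]
    simp [wt, y_eq h, W, X]
    ring
  have fi : F (some (i, true)) + F (some (i, false)) = sn N i * sn N j *
      ((sn N i + e) * ((U x i ^ 2 + Z x i j ^ 2 - X x i j ^ 2) *
        ((U x i)⁻¹ * (Z x i j)⁻¹))) := by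
    simp only [hF, hdm]
    simp [wt, y_eq h, hij, N_false hN]
    rw [show x (some (j, true)) (some (i, false)) = Z x i j from (Z_symm h i j).symm]
    simp only [U, X, Z]
    ring
  have fj : F (some (j, true)) + F (some (j, false)) = sn N i * sn N j *
      ((sn N j + e) * ((Z x i j ^ 2 + U x j ^ 2 - X x i j ^ 2) *
          ((Z x i j)⁻¹ * (U x j)⁻¹))) := by
    simp only [hF, hdm]
    simp [wt, y_eq h, Ne.symm hij, N_false hN]
    simp only [U, X, Z]
    ring
  have fl' : ∀ l, (if l = i ∨ l = j then 0 else F (some (l, true)) + F (some (l, false))) =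
      sn N i * sn N j * (if l = i ∨ l = j then 0 else sn N l * TX x i j l) := by
    intro l
    by_cases hl : l = i ∨ l = j
    · rw [if_pos hl, if_pos hl, mul_zero]
    · rw [if_neg hl, if_neg hl]
      push Not at hl
      simp only [hF, hdm]
      simp [wt, y_eq h, hl.1, hl.2, N_false hN]
      simp only [TX, X, Z, sn]
      ring
  rw [sum_pb F, sum_two _ hij, Finset.sum_congr rfl fun l _ => fl' l, f0, fi, fj, hdm,
    ← Finset.mul_sum] at h1
  have h2 : sn N i * sn N j ≠ 0 := mul_ne_zero hi hj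
  refine mul_left_cancel₀ h2 ?_
  exact Eq.trans h1 (by ring)

theorem eqZ {i j : Fin k} (hij : i ≠ j) (hi : sn N i ≠ 0) (hj : sn N j ≠ 0) :
    bb N e - Z x i j = N none * ((W x i ^ 2 + W x j ^ 2 - Z x i j ^ 2) *
        ((W x i)⁻¹ * (W x j)⁻¹)) +
      (∑ l, if l = i ∨ l = j then 0 else sn N l * TZ x i j l) +
      ((sn N i + e) * ((U x i ^ 2 + X x i j ^ 2 - Z x i j ^ 2) * ((U x i)⁻¹ * (X x i j)⁻¹)) +
        (sn N j + e) * ((X x i j ^ 2 + U x j ^ 2 - Z x i j ^ 2) *
          ((X x i j)⁻¹ * (U x j)⁻¹))) := by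
  have hab : (some (i, true) : Pb k) ≠ some (j, false) := by
    intro h0
    simp at h0
  have h1 := h.eqn _ _ hab
  set F : Pb k → L := fun c => if c = some (i, true) ∨ c = some (j, false) then 0 else
      dm N e (some (i, true)) (some (j, false)) * wt N e (some (i, true)) (some (j, false)) c *
      (x (some (i, true)) c ^ 2 + x (some (j, false)) c ^ 2 -
        x (some (i, true)) (some (j, false)) ^ 2) *
      (y (some (i, true)) c * y (some (j, false)) c) with hF
  have hdm : dm N e (some (i, true)) (some (j, false)) = sn N i * sn N j := by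
    simp [dm, sn, Ne.symm hij, N_false hN]
  have f0 : F none = sn N i * sn N j * (N none * ((W x i ^ 2 + W x j ^ 2 - Z x i j ^ 2) *
        ((W x i)⁻¹ * (W x j)⁻¹))) := by
    simp only [hF, hdm]
    simp [wt, y_eq h, x_fn h]
    simp only [W, Z]
    ring
  have fi : F (some (i, true)) + F (some (i, false)) = sn N i * sn N j *
      ((sn N i + e) * ((U x i ^ 2 + X x i j ^ 2 - Z x i j ^ 2) *
        ((U x i)⁻¹ * (X x i j)⁻¹))) := by
    simp only [hF, hdm]
    simp [wt, y_eq h, hij, N_false hN, x_ff h]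
    rw [X_symm h j i]
    simp only [U, X, Z]
    ring
  have fj : F (some (j, true)) + F (some (j, false)) = sn N i * sn N j *
      ((sn N j + e) * ((X x i j ^ 2 + U x j ^ 2 - Z x i j ^ 2) *
          ((X x i j)⁻¹ * (U x j)⁻¹))) := by
    simp only [hF, hdm]
    simp [wt, y_eq h, Ne.symm hij]
    rw [show x (some (j, false)) (some (j, true)) = U x j from h.symm _ _]
    simp only [U, X, Z, sn]
    ring
  have fl' : ∀ l, (if l = i ∨ l = j then 0 else F (some (l, true)) + F (some (l, false))) =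
      sn N i * sn N j * (if l = i ∨ l = j then 0 else sn N l * TZ x i j l) := by
    intro l
    by_cases hl : l = i ∨ l = j
    · rw [if_pos hl, if_pos hl, mul_zero]
    · rw [if_neg hl, if_neg hl]
      push Not at hl
      simp only [hF, hdm]
      simp [wt, y_eq h, hl.1, hl.2, N_false hN, x_ft h, x_ff h]
      simp only [TZ, X, Z, sn]
      ring
  rw [sum_pb F, sum_two _ hij, Finset.sum_congr rfl fun l _ => fl' l, f0, fi, fj, hdm,
    ← Finset.mul_sum] at h1
  have h2 : sn N i * sn N j ≠ 0 := mul_ne_zero hi hj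
  refine mul_left_cancel₀ h2 ?_
  exact Eq.trans h1 (by ring)

theorem eqU (i : Fin k) (hi : sn N i ≠ 0) (hi' : sn N i + e ≠ 0) :
    bb N e - U x i = N none * ((2 * W x i ^ 2 - U x i ^ 2) * ((W x i)⁻¹ * (W x i)⁻¹)) +
      ∑ l, if l = i then 0 else 2 * (sn N l * ((X x i l ^ 2 + Z x i l ^ 2 - U x i ^ 2) *
        ((X x i l)⁻¹ * (Z x i l)⁻¹))) := by
  have hab : (some (i, true) : Pb k) ≠ some (i, false) := by
    intro h0
    simp at h0
  have h1 := h.eqn _ _ hab
  set F : Pb k → L := fun c => if c = some (i, true) ∨ c = some (i, false) then 0 else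
      dm N e (some (i, true)) (some (i, false)) * wt N e (some (i, true)) (some (i, false)) c *
      (x (some (i, true)) c ^ 2 + x (some (i, false)) c ^ 2 -
        x (some (i, true)) (some (i, false)) ^ 2) *
      (y (some (i, true)) c * y (some (i, false)) c) with hF
  have hdm : dm N e (some (i, true)) (some (i, false)) = sn N i * (sn N i + e) := by
    simp [dm, N_false hN]
    exact Or.inl rfl
  have f0 : F none = sn N i * (sn N i + e) * (N none * ((2 * W x i ^ 2 - U x i ^ 2) *
        ((W x i)⁻¹ * (W x i)⁻¹))) := by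
    simp only [hF, hdm]
    simp [wt, y_eq h, x_fn h]
    simp only [W, U]
    ring
  have fi : F (some (i, true)) + F (some (i, false)) = 0 := by
    simp only [hF]
    simp
  have fl' : ∀ l, (if l = i then 0 else F (some (l, true)) + F (some (l, false))) =
      sn N i * (sn N i + e) * (if l = i then 0 else
        2 * (sn N l * ((X x i l ^ 2 + Z x i l ^ 2 - U x i ^ 2) *
        ((X x i l)⁻¹ * (Z x i l)⁻¹)))) := by
    intro l
    by_cases hl : l = i
    · rw [if_pos hl, if_pos hl, mul_zero]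
    · rw [if_neg hl, if_neg hl]
      simp only [hF, hdm]
      simp [wt, y_eq h, hl, N_false hN, x_ft h, x_ff h]
      simp only [U, X, Z, sn]
      ring
  rw [sum_pb F, sum_one _ i, Finset.sum_congr rfl fun l _ => fl' l, f0, fi, hdm,
    ← Finset.mul_sum] at h1
  have h2 : sn N i * (sn N i + e) ≠ 0 := mul_ne_zero hi hi'
  refine mul_left_cancel₀ h2 ?_
  exact Eq.trans h1 (by ring)

theorem eqW (i : Fin k) (hi : sn N i ≠ 0) :
    N none * (bb N e - W x i) = N none * ((sn N i + e) * (U x i * (W x i)⁻¹) +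
      ∑ l, if l = i then 0 else sn N l * ((X x i l ^ 2 + W x l ^ 2 - W x i ^ 2) *
        ((X x i l)⁻¹ * (W x l)⁻¹) + (Z x i l ^ 2 + W x l ^ 2 - W x i ^ 2) *
        ((Z x i l)⁻¹ * (W x l)⁻¹))) := by
  have hab : (some (i, true) : Pb k) ≠ none := by
    intro h0
    simp at h0
  have h1 := h.eqn _ _ hab
  set F : Pb k → L := fun c => if c = some (i, true) ∨ c = none then 0 else
      dm N e (some (i, true)) none * wt N e (some (i, true)) none c *
      (x (some (i, true)) c ^ 2 + x none c ^ 2 -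
        x (some (i, true)) none ^ 2) *
      (y (some (i, true)) c * y none c) with hF
  have hdm : dm N e (some (i, true)) none = sn N i * N none := by
    simp [dm, sn]
  have hu := U_ne h i
  have f0 : F none = 0 := by
    simp only [hF]
    simp
  have fi : F (some (i, true)) + F (some (i, false)) = sn N i * N none *
      ((sn N i + e) * (U x i * (W x i)⁻¹)) := by
    simp only [hF, hdm]
    simp [wt, y_eq h, N_false hN, x_nf h]
    rw [show x (some (i, true)) none = W x i from rfl,
      show x (some (i, true)) (some (i, false)) = U x i from rfl]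
    have hw := W_ne h i
    field_simp
    ring
  have fl' : ∀ l, (if l = i then 0 else F (some (l, true)) + F (some (l, false))) =
      sn N i * N none * (if l = i then 0 else
        sn N l * ((X x i l ^ 2 + W x l ^ 2 - W x i ^ 2) *
        ((X x i l)⁻¹ * (W x l)⁻¹) + (Z x i l ^ 2 + W x l ^ 2 - W x i ^ 2) *
        ((Z x i l)⁻¹ * (W x l)⁻¹))) := by
    intro l
    by_cases hl : l = i
    · rw [if_pos hl, if_pos hl, mul_zero]
    · rw [if_neg hl, if_neg hl]
      simp only [hF, hdm]
      simp [wt, y_eq h, hl, N_false hN, x_nt h, x_nf h]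
      simp only [W, X, Z, sn]
      ring
  rw [sum_pb F, sum_one _ i, Finset.sum_congr rfl fun l _ => fl' l, f0, fi, hdm,
    ← Finset.mul_sum] at h1
  refine mul_left_cancel₀ hi ?_
  have h3 : N none * (bb N e - W x i) * sn N i = sn N i * N none *
      (2 * (∑ γ, N γ + 2 * e) - x (some (i, true)) none) := by
    rw [bb, W]; ring
  rw [mul_comm, h3, h1]
  ring

end

end Pool.Agent.H98.BC
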