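import Mathlib

/-!
# Generic points with a transcendental value of a given polynomial

If a polynomial `q` takes infinitely many values on a set `Z` of points over `F`, there is a point
`x` over an extension field `L` at which all polynomials vanish that vanish on `Z`, and such that
`q x` is transcendental over `F`.
-/

namespace Pool.Agent.H98.BC

open MvPolynomial

universe u

theorem exists_generic {F : Type u} [Field F] {ι : Type} [Finite ι] (Z : Set (ι → F))
    (q : MvPolynomial ι F) (hZ : ((fun z => MvPolynomial.eval z q) '' Z).Infinite) :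
    ∃ (L : Type u) (_ : Field L) (_ : Algebra F L) (x : ι → L),
      Transcendental F (MvPolynomial.aeval x q) ∧
      ∀ p : MvPolynomial ι F, (∀ z ∈ Z, MvPolynomial.eval z p = 0) →
        MvPolynomial.aeval x p = 0 := by
  classical
  set Q : Set F := (fun z => MvPolynomial.eval z q) '' Z with hQ
  have hrep : ∀ c : Q, ∃ z ∈ Z, MvPolynomial.eval z q = (c : F) := fun c => c.2
  choose r hr1 hr2 using hrep
  set I : Ideal (MvPolynomial ι F) :=
    ⨅ c : Q, RingHom.ker (MvPolynomial.eval (r c)) with hI
  have hfin : I.minimalPrimes.Finite := Ideal.finite_minimalPrimes_of_isNoetherianRing _ I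
  have hz : ∀ c : Q, ∃ P : I.minimalPrimes,
      (P : Ideal (MvPolynomial ι F)) ≤ RingHom.ker (MvPolynomial.eval (r c)) := by
    intro c
    have h1 : I ≤ RingHom.ker (MvPolynomial.eval (r c)) := iInf_le _ c
    have : (RingHom.ker (MvPolynomial.eval (r c))).IsPrime := RingHom.ker_isPrime _
    obtain ⟨P, hP, hP'⟩ := Ideal.exists_minimalPrimes_le h1
    exact ⟨⟨P, hP⟩, hP'⟩
  choose f hf using hz
  have : Infinite Q := hZ.to_subtype
  have : Finite I.minimalPrimes := hfin.to_subtype
  obtain ⟨P, hP⟩ := Finite.exists_infinite_fiber f
  have hprime : (P : Ideal (MvPolynomial ι F)).IsPrime := P.2.1.1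
  have hIP : I ≤ (P : Ideal (MvPolynomial ι F)) := P.2.1.2
  let R := MvPolynomial ι F ⧸ (P : Ideal (MvPolynomial ι F))
  let L := FractionRing R
  have h3 : ∀ p : MvPolynomial ι F, MvPolynomial.aeval
      (fun i => algebraMap R L (Ideal.Quotient.mk _ (MvPolynomial.X i))) p =
      algebraMap R L (Ideal.Quotient.mk _ p) := by
    intro p
    induction p using MvPolynomial.induction_on with
    | C a =>
      rw [MvPolynomial.aeval_C]
      exact IsScalarTower.algebraMap_apply F R L a
    | add p q hp hq => rw [map_add, map_add, map_add, hp, hq]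
    | mul_X p i hp => rw [map_mul, map_mul, map_mul, hp, MvPolynomial.aeval_X]
  refine ⟨L, inferInstance, inferInstance,
    fun i => algebraMap R L (Ideal.Quotient.mk _ (MvPolynomial.X i)), ?_, ?_⟩
  · rw [Transcendental]
    rintro ⟨g, hg0, hg⟩
    have h4 : MvPolynomial.aeval
      (fun i => algebraMap R L (Ideal.Quotient.mk _ (MvPolynomial.X i)))
        (Polynomial.aeval q g) = 0 := by
      rw [← Polynomial.aeval_algHom_apply]
      exact hg
    rw [h3] at h4
    have h5 : Ideal.Quotient.mk (P : Ideal (MvPolynomial ι F)) (Polynomial.aeval q g) = 0 := by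
      apply IsFractionRing.injective R L
      rw [map_zero]
      exact h4
    rw [Ideal.Quotient.eq_zero_iff_mem] at h5
    have h6 : ∀ c : f ⁻¹' {P}, Polynomial.eval ((c : Q) : F) g = 0 := by
      intro c
      have hc1 : f (c : Q) = P := c.2
      have hle := hf (c : Q)
      rw [hc1] at hle
      have h7 : MvPolynomial.eval (r (c : Q)) (Polynomial.aeval q g) = 0 :=
        RingHom.mem_ker.1 (hle h5)
      have h8 : MvPolynomial.eval (r (c : Q)) (Polynomial.aeval q g) =
          Polynomial.eval (MvPolynomial.eval (r (c : Q)) q) g := by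
        rw [Polynomial.aeval_def, Polynomial.hom_eval₂]
        have : (MvPolynomial.eval (r (c : Q))).comp (algebraMap F (MvPolynomial ι F)) =
            RingHom.id F := by
          ext a
          simp
        rw [this, Polynomial.eval₂_id]
      rw [h8, hr2] at h7
      exact h7
    have h9 : Set.Finite {c : F | Polynomial.eval c g = 0} := by
      have := g.roots.toFinset.finite_toSet
      refine this.subset fun c hc => ?_
      simp only [Finset.mem_coe, Multiset.mem_toFinset, Polynomial.mem_roots hg0]
      exact hc
    have : Infinite (f ⁻¹' {P}) := hP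
    have h10 : (Set.range fun c : f ⁻¹' {P} => ((c : Q) : F)).Infinite := by
      apply Set.infinite_range_of_injective
      intro c c' h
      exact Subtype.ext (Subtype.ext h)
    exact h10 (h9.subset (by rintro _ ⟨c, rfl⟩; exact h6 c))
  · intro p hp
    have h1 : p ∈ I := by
      rw [hI]
      simp only [Ideal.mem_iInf, RingHom.mem_ker]
      intro c
      exact hp _ (hr1 c)
    have h2 : Ideal.Quotient.mk (P : Ideal (MvPolynomial ι F)) p = 0 :=
      Ideal.Quotient.eq_zero_iff_mem.mpr (hIP h1)
    rw [h3, h2, map_zero]

end Pool.Agent.H98.BC
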