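import Pool.Agent.H98.BC.OrdR
import Pool.Agent.H98.BC.Gen
import Pool.Agent.H98.BC.Place
import Pool.Agent.H98.FL.Pts

/-!
# Module Fin: finitely many solutions for at most four U-blocks (algebraic part)
-/

set_option autoImplicit false

namespace Pool.Agent.H98.BC

open Pool.Agent.H43.BC Pool.Agent.H98.FL

/-- the coordinates -/
abbrev Ix (k : ℕ) : Type := (Pb k × Pb k) ⊕ (Pb k × Pb k)

/-- a pair of tables as a point -/
def pt {k : ℕ} {F : Type} (p : (Pb k → Pb k → F) × (Pb k → Pb k → F)) : Ix k → F :=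
  Sum.elim (fun q => p.1 q.1 q.2) (fun q => p.2 q.1 q.2)

theorem pt_inj {k : ℕ} {F : Type} : Function.Injective (pt (k := k) (F := F)) := by
  intro p q h
  refine Prod.ext ?_ ?_
  · funext i j
    exact congrFun h (Sum.inl (i, j))
  · funext i j
    exact congrFun h (Sum.inr (i, j))

/-- the solutions in the field of the ultraproduct -/
def Sol {k : ℕ} {F : Type} [Field F] (N : Pb k → F) (e : F) :
    Set ((Pb k → Pb k → F) × (Pb k → Pb k → F)) :=
  {p | Sys N e p.1 p.2 ∧
    ∑ i, (N (some (i, true)) + e) * p.2 (some (i, true)) (some (i, false)) ≠ 0}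

section

variable {k : ℕ} {F : Type} [Field F] {N : Pb k → F} {e : F}

/-- the system at a generic point -/
theorem sys_generic {L : Type} [Field L] [Algebra F L]
    (T : Set ((Pb k → Pb k → F) × (Pb k → Pb k → F))) (hT : ∀ p ∈ T, Sys N e p.1 p.2)
    (X : Ix k → L) (hX : ∀ q : MvPolynomial (Ix k) F,
      (∀ z ∈ pt '' T, MvPolynomial.eval z q = 0) → MvPolynomial.aeval X q = 0) :
    Sys (fun p => algebraMap F L (N p)) (algebraMap F L e) (fun a b => X (Sum.inl (a, b)))
      (fun a b => X (Sum.inr (a, b))) := by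
  classical
  let mx : Pb k → Pb k → MvPolynomial (Ix k) F := fun i j => MvPolynomial.X (Sum.inl (i, j))
  let my : Pb k → Pb k → MvPolynomial (Ix k) F := fun i j => MvPolynomial.X (Sum.inr (i, j))
  have key : ∀ q : MvPolynomial (Ix k) F,
      (∀ p ∈ T, MvPolynomial.eval (pt p) q = 0) → MvPolynomial.aeval X q = 0 := by
    intro q hq
    refine hX q ?_
    rintro z ⟨p, hp, rfl⟩
    exact hq p hp
  have ex : ∀ (p : (Pb k → Pb k → F) × (Pb k → Pb k → F)) a b,
      MvPolynomial.eval (pt p) (mx a b) = p.1 a b := fun p a b => MvPolynomial.eval_X _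
  have ey : ∀ (p : (Pb k → Pb k → F) × (Pb k → Pb k → F)) a b,
      MvPolynomial.eval (pt p) (my a b) = p.2 a b := fun p a b => MvPolynomial.eval_X _
  have ax : ∀ a b, MvPolynomial.aeval X (mx a b) = X (Sum.inl (a, b)) :=
    fun a b => MvPolynomial.aeval_X _ _
  have ay : ∀ a b, MvPolynomial.aeval X (my a b) = X (Sum.inr (a, b)) :=
    fun a b => MvPolynomial.aeval_X _ _
  refine ⟨fun a b => ?_, fun a b => ?_, fun a b => ?_, fun a => ?_, fun a b hab => ?_,
    fun a b hab h0 => ?_⟩
  · have := key (mx a b - mx b a) (fun p hp => by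
      rw [map_sub, ex, ex, (hT p hp).symm, sub_self])
    rw [map_sub, ax, ax] at this
    exact sub_eq_zero.1 this
  · have := key (mx (fl a) (fl b) - mx a b) (fun p hp => by
      rw [map_sub, ex, ex, (hT p hp).flip, sub_self])
    rw [map_sub, ax, ax] at this
    exact sub_eq_zero.1 this
  · have := key (mx a b * my a b - 1) (fun p hp => by
      rw [map_sub, map_mul, map_one, ex, ey, (hT p hp).inv, sub_self])
    rw [map_sub, map_mul, map_one, ax, ay] at this
    exact sub_eq_zero.1 this
  · have := key (mx a a - 1) (fun p hp => by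
      rw [map_sub, map_one, ex, (hT p hp).diag, sub_self])
    rw [map_sub, map_one, ax] at this
    exact sub_eq_zero.1 this
  · have := key (MvPolynomial.C (dm N e a b) *
        (MvPolynomial.C (2 * ((∑ c, N c) + 2 * e)) - mx a b) -
        ∑ c, if c = a ∨ c = b then 0 else
          MvPolynomial.C (dm N e a b * wt N e a b c) * (mx a c ^ 2 + mx b c ^ 2 - mx a b ^ 2) *
            (my a c * my b c)) (fun p hp => by
      have h4 := (hT p hp).eqn a b hab
      simp only [map_sub, map_mul, map_sum, map_add, map_pow,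
        apply_ite (MvPolynomial.eval (pt p)), map_zero, ex, ey, MvPolynomial.eval_C] at h4 ⊢
      exact sub_eq_zero.2 h4)
    have e1 : ∀ c : F, MvPolynomial.aeval X (MvPolynomial.C c) = algebraMap F L c :=
      fun c => MvPolynomial.aeval_C _ _
    rw [map_sub, map_mul, map_sub, map_sum, e1, e1, ax, sub_eq_zero] at this
    rw [dm_map (algebraMap F L)]
    have e2 : (2 * ((∑ γ, algebraMap F L (N γ)) + 2 * algebraMap F L e)) =
        algebraMap F L (2 * ((∑ c, N c) + 2 * e)) := by
      simp only [map_mul, map_add, map_sum, map_ofNat]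
    rw [e2, this]
    refine Finset.sum_congr rfl fun c _ => ?_
    rw [wt_map (algebraMap F L)]
    split_ifs
    · exact map_zero _
    · simp only [map_mul, map_sub, map_add, map_pow, ax, ay, e1]
  · rw [dm_map (algebraMap F L), map_eq_zero] at h0
    have := key (mx a b - 1) (fun p hp => by
      rw [map_sub, map_one, ex, (hT p hp).absent a b hab h0, sub_self])
    rw [map_sub, map_one, ax] at this
    exact sub_eq_zero.1 this

/-- the system at a place -/
theorem sys_place {M L L' Ω : Type} [Field M] [Field L] [Algebra M L]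
    [Field L'] [Algebra F L'] [Field Ω] [Algebra L' Ω] [Algebra F Ω] [IsScalarTower F L' Ω]
    (j : F →+* M) (g : L →+* Ω) (hg : ∀ c, g (algebraMap M L (j c)) = algebraMap F Ω c)
    {x y : Pb k → Pb k → L'}
    (h : Sys (fun p => algebraMap F L' (N p)) (algebraMap F L' e) x y)
    (z : Pb k → Pb k → L) (hz : ∀ a b, g (z a b) = algebraMap L' Ω (x a b)) :
    Sys (fun p => algebraMap M L (j (N p))) (algebraMap M L (j e)) z (fun a b => (z a b)⁻¹) := by
  refine sys_of_map g g.injective ?_
  have h1 := sys_map (algebraMap L' Ω) (algebraMap L' Ω).injective h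
  have e1 : (fun a b => g (z a b)) = fun a b => algebraMap L' Ω (x a b) := by
    funext a b; exact hz a b
  have e2 : (fun a b => g ((z a b)⁻¹)) = fun a b => algebraMap L' Ω (y a b) := by
    funext a b
    rw [map_inv₀, hz, y_eq h, map_inv₀]
  have e3 : (fun p => g (algebraMap M L (j (N p)))) =
      fun p => algebraMap L' Ω (algebraMap F L' (N p)) := by
    funext p
    rw [hg, ← IsScalarTower.algebraMap_apply]
  have e4 : g (algebraMap M L (j e)) = algebraMap L' Ω (algebraMap F L' e) := by
    rw [hg, ← IsScalarTower.algebraMap_apply]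
  rw [e1, e2, e3, e4]
  exact h1

variable [CharZero F] (hN : ∀ p, N (fl p) = N p) (hI : Indep N e)

omit hN hI in
/-- a product which has neither zeros nor poles takes finitely many values -/
theorem fin_val (a b c d : Pb k)
    (hq : ∀ (M L : Type) [Field M] [CharZero M] [Field L] [Algebra M L] (O : Ord M L)
      (x y : Pb k → Pb k → L) (j : F →+* M) (D : Derivation M L L), D ≠ 0 →
      Sys (fun p => algebraMap M L (j (N p))) (algebraMap M L (j e)) x y →
      O.ord (x a b) + O.ord (x c d) = 0) :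
    ((fun p : (Pb k → Pb k → F) × (Pb k → Pb k → F) => p.1 a b * p.1 c d) '' Sol N e).Finite := by
  classical
  by_contra hinf
  set q : MvPolynomial (Ix k) F := MvPolynomial.X (Sum.inl (a, b)) *
    MvPolynomial.X (Sum.inl (c, d)) with hqd
  have h1 : ((fun z => MvPolynomial.eval z q) '' (pt '' Sol N e)).Infinite := by
    intro hf
    apply hinf
    rw [Set.image_image] at hf
    refine hf.subset ?_
    rintro _ ⟨p, hp, rfl⟩
    refine ⟨p, hp, ?_⟩
    change MvPolynomial.eval (pt p) q = p.1 a b * p.1 c d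
    rw [hqd, map_mul, MvPolynomial.eval_X, MvPolynomial.eval_X]
    rfl
  obtain ⟨L', _, _, X, ht, hX⟩ := exists_generic (pt '' Sol N e) q h1
  have hS := sys_generic (Sol N e) (fun p hp => hp.1) X hX
  let Ω := AlgebraicClosure L'
  rw [hqd, map_mul, MvPolynomial.aeval_X, MvPolynomial.aeval_X] at ht
  have ht' : Transcendental F (algebraMap L' Ω (X (Sum.inl (a, b)) * X (Sum.inl (c, d)))) := by
    intro hal
    exact ht ((isAlgebraic_algebraMap_iff (algebraMap L' Ω).injective).1 hal)
  obtain ⟨M, _, _, j, L, _, _, O, D, g, z, hD, hz, hz0, hg⟩ := exists_place (F := F) (Ω := Ω)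
    (Sum.elim (fun q : Pb k × Pb k => algebraMap L' Ω (X (Sum.inl q)))
      (fun _ : Unit => algebraMap L' Ω (X (Sum.inl (a, b)) * X (Sum.inl (c, d)))))
    (Sum.inr ()) ht'
  have hz1 : ∀ a b, g (z (Sum.inl (a, b))) = algebraMap L' Ω (X (Sum.inl (a, b))) :=
    fun a b => hz (Sum.inl (a, b))
  have hS' := sys_place (M := M) (L := L) (Ω := Ω) j g hg hS (fun a b => z (Sum.inl (a, b))) hz1
  have h2 := hq M L O _ _ j D hD hS'
  have h3 : z (Sum.inr ()) = z (Sum.inl (a, b)) * z (Sum.inl (c, d)) := by
    apply g.injective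
    rw [map_mul, hz1, hz1, ← map_mul]
    exact hz (Sum.inr ())
  have h4 := O.ord_mul (z (Sum.inl (a, b))) (z (Sum.inl (c, d))) (x_ne hS' a b) (x_ne hS' c d)
  rw [h3, h4] at hz0
  omega

include hN hI in
theorem fin_pp (i l : Fin k) : ((fun p : (Pb k → Pb k → F) × (Pb k → Pb k → F) =>
    pp p.1 i l) '' Sol N e).Finite := by
  refine fin_val _ _ _ _ ?_
  intro M L _ _ _ _ O x y j D hD h
  obtain ⟨h1, h2, h3⟩ := ord_rel O D hD hN hI j h
  rcases lt_trichotomy i l with h4 | h4 | h4
  · exact h1 i l h4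
  · subst h4
    have h5 : x (some (i, true)) (some (i, true)) = 1 := h.diag _
    have h6 : O.ord (1 : L) = 0 := LogResAux.ord_one O
    rw [h5, h6, zero_add]
    exact h2 i
  · have h5 := h1 l i h4
    rw [X_symm h, Z_symm h] at h5
    exact h5

include hN hI in
theorem fin_U (i : Fin k) : ((fun p : (Pb k → Pb k → F) × (Pb k → Pb k → F) =>
    U p.1 i) '' Sol N e).Finite := by
  have h := fin_val (some (i, true)) (some (i, false)) none none (fun M L _ _ _ _ O x y j D
    hD h => by
      obtain ⟨h1, h2, h3⟩ := ord_rel O D hD hN hI j h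
      have h5 : x none none = 1 := h.diag _
      have h6 : O.ord (1 : L) = 0 := LogResAux.ord_one O
      rw [h5, h6, add_zero]
      exact h2 i)
  refine h.subset ?_
  rintro _ ⟨p, hp, rfl⟩
  refine ⟨p, hp, ?_⟩
  change p.1 (some (i, true)) (some (i, false)) * p.1 none none = _
  rw [hp.1.diag, mul_one]
  rfl

include hN hI in
theorem fin_W (i : Fin k) : ((fun p : (Pb k → Pb k → F) × (Pb k → Pb k → F) =>
    W p.1 i) '' Sol N e).Finite := by
  have h := fin_val (some (i, true)) none none none (fun M L _ _ _ _ O x y j D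
    hD h => by
      obtain ⟨h1, h2, h3⟩ := ord_rel O D hD hN hI j h
      have h5 : x none none = 1 := h.diag _
      have h6 : O.ord (1 : L) = 0 := LogResAux.ord_one O
      rw [h5, h6, add_zero]
      exact h3 i)
  refine h.subset ?_
  rintro _ ⟨p, hp, rfl⟩
  refine ⟨p, hp, ?_⟩
  change p.1 (some (i, true)) none * p.1 none none = _
  rw [hp.1.diag, mul_one]
  rfl

include hN hI in
/-- the contradiction from an infinite solution set -/
theorem no_infinite (hk : k ≤ 4) (hinf : (Sol N e).Infinite) : False := by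
  classical
  -- an infinite subset with constant values
  let Ψ : (Pb k → Pb k → F) × (Pb k → Pb k → F) → (Fin k → Fin k → F) × (Fin k → F) × (Fin k → F) :=
    fun p => (fun i l => pp p.1 i l, fun i => U p.1 i, fun i => W p.1 i)
  have hfin : (Ψ '' Sol N e).Finite := by
    have h1 := Set.Finite.pi' fun i : Fin k => Set.Finite.pi' fun l : Fin k => fin_pp hN hI i l
    have h2 := Set.Finite.pi' fun i : Fin k => fin_U hN hI i
    have h3 := Set.Finite.pi' fun i : Fin k => fin_W hN hI i
    refine (h1.prod (h2.prod h3)).subset ?_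
    rintro _ ⟨p, hp, rfl⟩
    refine ⟨?_, ?_, ?_⟩
    · intro i l
      exact ⟨p, hp, rfl⟩
    · intro i
      exact ⟨p, hp, rfl⟩
    · intro i
      exact ⟨p, hp, rfl⟩
  obtain ⟨c, hc⟩ : ∃ c, (Sol N e ∩ Ψ ⁻¹' {c}).Infinite := by
    by_contra hcon
    push Not at hcon
    apply hinf
    have h1 : (⋃ c ∈ Ψ '' Sol N e, (Sol N e ∩ Ψ ⁻¹' {c})).Finite :=
      hfin.biUnion fun c _ => hcon c
    refine h1.subset fun p hp => ?_
    simp only [Set.mem_iUnion]
    exact ⟨Ψ p, ⟨p, hp, rfl⟩, hp, rfl⟩
  set T := Sol N e ∩ Ψ ⁻¹' {c} with hT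
  obtain ⟨p₀, hp₀⟩ := hc.nonempty
  have hcp : ∀ p ∈ T, ∀ i l, pp p.1 i l = c.1 i l := fun p hp i l =>
    congrFun (congrFun (congrArg Prod.fst hp.2) i) l
  have hcU : ∀ p ∈ T, ∀ i, U p.1 i = c.2.1 i := fun p hp i =>
    congrFun (congrArg (fun q => q.2.1) hp.2) i
  have hcW : ∀ p ∈ T, ∀ i, W p.1 i = c.2.2 i := fun p hp i =>
    congrFun (congrArg (fun q => q.2.2) hp.2) i
  obtain ⟨L', _, _, X, ⟨i1, hi1⟩, hX⟩ := exists_transcendental (pt '' T) (hc.image pt_inj.injOn)
  have hS := sys_generic T (fun p hp => hp.1.1) X hX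
  set x : Pb k → Pb k → L' := fun a b => X (Sum.inl (a, b)) with hx
  set y : Pb k → Pb k → L' := fun a b => X (Sum.inr (a, b)) with hy
  have gp : ∀ i l, pp x i l = algebraMap F L' (c.1 i l) := by
    intro i l
    have h1 := hX (MvPolynomial.X (Sum.inl (some (i, true), some (l, true))) *
      MvPolynomial.X (Sum.inl (some (i, true), some (l, false))) - MvPolynomial.C (c.1 i l)) (by
        rintro _ ⟨p, hp, rfl⟩
        rw [map_sub, map_mul, MvPolynomial.eval_X, MvPolynomial.eval_X, MvPolynomial.eval_C,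
          sub_eq_zero, ← hcp p hp i l]
        rfl)
    rw [map_sub, map_mul, MvPolynomial.aeval_X, MvPolynomial.aeval_X, MvPolynomial.aeval_C,
      sub_eq_zero] at h1
    exact h1
  have gU : ∀ i, U x i = algebraMap F L' (c.2.1 i) := by
    intro i
    have h1 := hX (MvPolynomial.X (Sum.inl (some (i, true), some (i, false))) -
      MvPolynomial.C (c.2.1 i)) (by
        rintro _ ⟨p, hp, rfl⟩
        rw [map_sub, MvPolynomial.eval_X, MvPolynomial.eval_C, sub_eq_zero, ← hcU p hp i]
        rfl)
    rw [map_sub, MvPolynomial.aeval_X, MvPolynomial.aeval_C, sub_eq_zero] at h1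
    exact h1
  have gW : ∀ i, W x i = algebraMap F L' (c.2.2 i) := by
    intro i
    have h1 := hX (MvPolynomial.X (Sum.inl (some (i, true), none)) -
      MvPolynomial.C (c.2.2 i)) (by
        rintro _ ⟨p, hp, rfl⟩
        rw [map_sub, MvPolynomial.eval_X, MvPolynomial.eval_C, sub_eq_zero, ← hcW p hp i]
        rfl)
    rw [map_sub, MvPolynomial.aeval_X, MvPolynomial.aeval_C, sub_eq_zero] at h1
    exact h1
  have hx0 : ∀ a b, x a b ≠ 0 := x_ne hS
  -- a transcendental unknown of the first kind
  have h1 : ∃ a b, Transcendental F (x a b) := by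
    rcases i1 with ⟨a, b⟩ | ⟨a, b⟩
    · exact ⟨a, b, hi1⟩
    · refine ⟨a, b, fun hal => hi1 ?_⟩
      have h2 : IsAlgebraic F (x a b)⁻¹ := hal.inv
      rw [← y_eq hS] at h2
      exact h2
  obtain ⟨i, l, hil, ht⟩ : ∃ i l : Fin k, i ≠ l ∧ Transcendental F (X (Sum.inl (some (i, true),
      some (l, true)))) := by
    obtain ⟨a, b, hab⟩ := h1
    have hXZ : ∀ i l, Transcendental F (x (some (i, true)) (some (l, true))) ∨
        Transcendental F (Z x i l) → Transcendental F (x (some (i, true)) (some (l, true))) := by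
      rintro i l (h2 | h2)
      · exact h2
      · intro hal
        apply h2
        have h3 : Z x i l = algebraMap F L' (c.1 i l) *
            (x (some (i, true)) (some (l, true)))⁻¹ := by
          rw [← gp, pp]
          change _ = x (some (i, true)) (some (l, true)) * Z x i l * _
          rw [mul_comm (x (some (i, true)) (some (l, true))), mul_assoc,
            mul_inv_cancel₀ (hx0 _ _), mul_one]
        rw [h3]
        exact (isAlgebraic_algebraMap _).mul hal.inv
    have hW' : ∀ i, ¬ Transcendental F (W x i) := fun i h2 => h2 (by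
      rw [gW]; exact isAlgebraic_algebraMap _)
    have hU' : ∀ i, ¬ Transcendental F (U x i) := fun i h2 => h2 (by
      rw [gU]; exact isAlgebraic_algebraMap _)
    have h1' : ¬ Transcendental F (1 : L') := fun h2 => h2 isAlgebraic_one
    rcases a with _ | ⟨i, s⟩ <;> rcases b with _ | ⟨l, s'⟩
    · exfalso
      rw [hS.diag] at hab
      exact h1' hab
    · exfalso
      cases s'
      · rw [x_nf hS] at hab; exact hW' l hab
      · rw [x_nt hS] at hab; exact hW' l hab
    · exfalso
      cases s
      · rw [x_fn hS] at hab; exact hW' i hab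
      · exact hW' i hab
    · by_cases hil : i = l
      · exfalso
        subst hil
        cases s <;> cases s'
        · rw [hS.diag] at hab; exact h1' hab
        · rw [x_ft hS] at hab; exact hU' i hab
        · exact hU' i hab
        · rw [hS.diag] at hab; exact h1' hab
      · refine ⟨i, l, hil, hXZ i l ?_⟩
        cases s <;> cases s'
        · rw [x_ff hS] at hab; exact Or.inl hab
        · rw [x_ft hS] at hab; exact Or.inr hab
        · exact Or.inr hab
        · exact Or.inl hab
  -- a place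
  let Ω := AlgebraicClosure L'
  have ht' : Transcendental F (algebraMap L' Ω (X (Sum.inl (some (i, true),
      some (l, true))))) := by
    intro hal
    exact ht ((isAlgebraic_algebraMap_iff (algebraMap L' Ω).injective).1 hal)
  obtain ⟨M, _, _, j, L, _, _, O, D, g, z, hD, hz, hz0, hg⟩ := exists_place (F := F) (Ω := Ω)
    (fun q : Pb k × Pb k => algebraMap L' Ω (X (Sum.inl q)))
    (some (i, true), some (l, true)) ht'
  have hz1 : ∀ a b, g (z (a, b)) = algebraMap L' Ω (x a b) := fun a b => hz (a, b)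
  have hS' := sys_place (M := M) (L := L) (Ω := Ω) j g hg hS (fun a b => z (a, b)) hz1
  have hcst : ∀ {u : L} {v : F}, g u = algebraMap L' Ω (algebraMap F L' v) →
      u = algebraMap M L (j v) := by
    intro u v huv
    apply g.injective
    rw [huv, hg, ← IsScalarTower.algebraMap_apply]
  have zU : ∀ i, U (fun a b => z (a, b)) i = algebraMap M L (j (c.2.1 i)) := by
    intro i
    refine hcst ?_
    rw [← gU]
    exact hz1 _ _
  refine core (M := M) (L := L) O hk (N := fun p => j (N p)) (fun p => congrArg j (hN p))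
    (e := j e) hS' ?_ ?_ ?_ ?_ ?_ ?_ ⟨i, l, hil, hz0.ne'⟩
  · intro i l
    refine ⟨j (c.1 i l), ?_⟩
    symm
    refine hcst ?_
    rw [← gp, pp, pp, map_mul, map_mul]
    congr 1
    · exact hz1 _ _
    · exact hz1 _ _
  · intro i
    exact ⟨j (c.2.1 i), (zU i).symm⟩
  · intro i
    refine ⟨j (c.2.2 i), ?_⟩
    symm
    refine hcst ?_
    rw [← gW]
    exact hz1 _ _
  · intro i
    rw [Ne, map_eq_zero]
    exact (indep_ne hI i).1
  · intro i
    rw [← map_add, Ne, map_eq_zero]
    exact (indep_ne hI i).2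
  · have h2 := hp₀.1.2
    have h3 : ∑ i, (sn (fun p => algebraMap M L (j (N p))) i + algebraMap M L (j e)) *
        (U (fun a b => z (a, b)) i)⁻¹ = algebraMap M L (j (∑ i, (N (some (i, true)) + e) *
          p₀.2 (some (i, true)) (some (i, false)))) := by
      rw [map_sum, map_sum]
      refine Finset.sum_congr rfl fun i _ => ?_
      have h4 : p₀.2 (some (i, true)) (some (i, false)) = (c.2.1 i)⁻¹ := by
        rw [y_eq hp₀.1.1, ← hcU p₀ hp₀ i]
        rfl
      rw [zU, h4, map_mul, map_mul, map_add, map_add, map_inv₀, map_inv₀]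
      rfl
    rw [h3, Ne, map_eq_zero, map_eq_zero]
    exact h2

end

theorem noRelation_mono {k : ℕ} {e : ℤ} {B B' : ℕ} (hB : B ≤ B') {n : Fin k → ℕ} {m : ℕ}
    (h : Stmt.NoRelation e B' n m) : Stmt.NoRelation e B n m := by
  intro w v t hw hv ht h0
  have hB' : (B : ℤ) ≤ B' := by exact_mod_cast hB
  exact h w v t (fun i j => (hw i j).trans hB') (fun i => (hv i).trans hB')
    (fun i => (ht i).trans hB') h0

theorem finite_sys1 (k : ℕ) (hk : k ≤ 4) (e : ℤ) (he : e = 1 ∨ e = -1) :
    ∃ B : ℕ, ∀ (n : Fin k → ℕ) (m : ℕ),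
      (∀ i, 0 < n i) → Stmt.NoRelation e B n m →
      {p : (Pb k → Pb k → ℝ) × (Pb k → Pb k → ℝ) |
        Sys (fun q => (NN n m q : ℝ)) (e : ℝ) p.1 p.2 ∧ ∀ a b, 0 < p.1 a b}.Finite := by
  rcases Nat.eq_zero_or_pos k with hk0 | hk0
  · subst hk0
    refine ⟨0, fun n m _ _ => Set.Subsingleton.finite ?_⟩
    rintro p ⟨hp, _⟩ q ⟨hq, _⟩
    have key : ∀ a : Pb 0, a = none := by
      rintro (_ | ⟨i, _⟩)
      · rfl
      · exact i.elim0
    refine Prod.ext ?_ ?_
    · funext a b
      rw [key a, key b, hp.diag, hq.diag]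
    · funext a b
      rw [y_eq hp, y_eq hq, key a, key b, hp.diag, hq.diag]
  · by_contra hcon
    push Not at hcon
    obtain ⟨F, _, _, N, hN, hI, hinf⟩ := ultraB hk0 e he (fun B => by
      obtain ⟨n, m, h1, h2, h3⟩ := hcon B
      exact ⟨n, m, h1, h2, h3⟩)
    exact no_infinite hN hI hk hinf

/-- Finitely many positive solutions of the Einstein equations for at most four U-blocks. -/
theorem finite_sysB (k : ℕ) (hk : k ≤ 4) : ∃ B : ℕ, ∀ (n : Fin k → ℕ) (m : ℕ) (e : ℤ),
      (e = 1 ∨ e = -1) → (∀ i, 0 < n i) → Stmt.NoRelation e B n m →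
      {p : (Pb k → Pb k → ℝ) × (Pb k → Pb k → ℝ) |
        Sys (fun q => (NN n m q : ℝ)) (e : ℝ) p.1 p.2 ∧ ∀ a b, 0 < p.1 a b}.Finite := by
  obtain ⟨B1, h1⟩ := finite_sys1 k hk 1 (Or.inl rfl)
  obtain ⟨B2, h2⟩ := finite_sys1 k hk (-1) (Or.inr rfl)
  refine ⟨max B1 B2, fun n m e he hn hr => ?_⟩
  rcases he with rfl | rfl
  · exact h1 n m hn (noRelation_mono (le_max_left _ _) hr)
  · exact h2 n m hn (noRelation_mono (le_max_right _ _) hr)

end Pool.Agent.H98.BC
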