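import Pool.Agent.H98.BC.Red

/-!
# Module Id4: the two identities for four U-blocks
-/

set_option autoImplicit false

namespace Pool.Agent.H98.BC

open Pool.Agent.H43.BC

/-- four different elements -/
def Dis (a b c d : Fin 4) : Prop := a ≠ b ∧ a ≠ c ∧ a ≠ d ∧ b ≠ c ∧ b ≠ d ∧ c ≠ d

theorem univ4 : ∀ a b c d : Fin 4, Dis a b c d → (Finset.univ : Finset (Fin 4)) = {a, b, c, d} := by
  unfold Dis
  decide

theorem exists_cd : ∀ a b : Fin 4, a ≠ b → ∃ c d, Dis a b c d := by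
  unfold Dis
  decide

theorem sum4 {A : Type*} [AddCommMonoid A] {a b c d : Fin 4} (h : Dis a b c d) (G : Fin 4 → A) :
    ∑ l, G l = G a + (G b + (G c + G d)) := by
  rw [univ4 a b c d h]
  obtain ⟨h1, h2, h3, h4, h5, h6⟩ := h
  rw [Finset.sum_insert, Finset.sum_insert, Finset.sum_insert, Finset.sum_singleton] <;>
    simp [h1, h2, h3, h4, h5, h6]

theorem sum4_two {A : Type*} [AddCommMonoid A] {a b c d : Fin 4} (h : Dis a b c d)
    (G : Fin 4 → A) : (∑ l, if l = a ∨ l = b then 0 else G l) = G c + G d := by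
  rw [sum4 h]
  obtain ⟨h1, h2, h3, h4, h5, h6⟩ := h
  simp [h2.symm, h3.symm, h4.symm, h5.symm]

theorem sum4_one {A : Type*} [AddCommMonoid A] {a b c d : Fin 4} (h : Dis a b c d)
    (G : Fin 4 → A) : (∑ l, if l = a then 0 else G l) = G b + (G c + G d) := by
  rw [sum4 h]
  obtain ⟨h1, h2, h3, h4, h5, h6⟩ := h
  simp [h1.symm, h2.symm, h3.symm]

section

variable {k : ℕ} {L : Type*} [Field L]

/-- coefficient of `Sg` -/
def AA (N : Pb k → L) (e : L) (x : Pb k → Pb k → L) (i j : Fin k) : L :=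
  sn N i * sn N j * (bb N e * (pp x i j)⁻¹ - N none * (((W x i ^ 2 + W x j ^ 2) *
        (pp x i j)⁻¹ + 1) * ((W x i)⁻¹ * (W x j)⁻¹)))

/-- the quotient term of the triangle `i j l` at the edge `i j` -/
def RR (N : Pb k → L) (x : Pb k → Pb k → L) (i j l : Fin k) : L :=
  sn N i * sn N j * sn N l * ((pp x i j + pp x i l + pp x j l) * tp x i j l) *
    (2 * pp x i j) * (Dl x i l * Dl x j l * (Dl x i j)⁻¹)

/-- the square term -/
def gg (N : Pb k → L) (x : Pb k → Pb k → L) (i j : Fin k) : L :=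
  sn N i * sn N j * (Dl x i j ^ 2 * (pp x i j)⁻¹)

/-- the summand of `K` -/
def kk (N : Pb k → L) (e : L) (x : Pb k → Pb k → L) (i : Fin k) : L :=
  sn N i * (bb N e - U x i - N none * ((2 * W x i ^ 2 - U x i ^ 2) *
    ((W x i)⁻¹ * (W x i)⁻¹)))

/-- the constant of an edge in `K` -/
def ck (N : Pb k → L) (x : Pb k → Pb k → L) (i j : Fin k) : L :=
  2 * (sn N i * sn N j * (2 - U x i ^ 2 * (pp x i j)⁻¹))

/-- the constant of an edge in the sum -/
def c2 (N : Pb k → L) (e : L) (x : Pb k → Pb k → L) (i j : Fin k) : L :=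
  sn N i * sn N j * (2 + 2 * ((sn N i + e) * U x i + (sn N j + e) * U x j) * (pp x i j)⁻¹)

/-- the constant of a vertex in the sum -/
def c1 (N : Pb k → L) (e : L) (x : Pb k → Pb k → L) (i : Fin k) : L :=
  sn N i * (W x i)⁻¹ * (N none * ((sn N i + e) * (U x i * (W x i)⁻¹)) -
    N none * (bb N e - W x i))

end

section

variable {L : Type*} [Field L] {N : Pb 4 → L} (hN : ∀ p, N (fl p) = N p) {e : L}
  {x y : Pb 4 → Pb 4 → L} (h : Sys N e x y)

include hN h

theorem kdiff {a b c d : Fin 4} (D : Dis a b c d) (hn : ∀ i, sn N i ≠ 0)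
    (hn' : ∀ i, sn N i + e ≠ 0) :
    4 * (gg N x a b - gg N x c d) = kk N e x a + kk N e x b - kk N e x c - kk N e x d -
      (ck N x a b + ck N x a c + ck N x a d) - (ck N x b a + ck N x b c + ck N x b d) +
      (ck N x c a + ck N x c b + ck N x c d) + (ck N x d a + ck N x d b + ck N x d c) := by
  have Da := eK hN h a (hn a) (hn' a)
  have Db := eK hN h b (hn b) (hn' b)
  have Dc := eK hN h c (hn c) (hn' c)
  have Dd := eK hN h d (hn d) (hn' d)
  have D1 := D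
  obtain ⟨h1, h2, h3, h4, h5, h6⟩ := D
  rw [sum4_one D1] at Da
  rw [sum4_one (a := b) (b := a) (c := c) (d := d) ⟨h1.symm, h4, h5, h2, h3, h6⟩] at Db
  rw [sum4_one (a := c) (b := a) (c := b) (d := d) ⟨h2.symm, h4.symm, h6, h1, h3, h5⟩] at Dc
  rw [sum4_one (a := d) (b := a) (c := b) (d := c)
    ⟨h3.symm, h5.symm, h6.symm, h1, h2, h4⟩] at Dd
  simp only [gg, kk, ck, Dl_symm h b a, Dl_symm h c a, Dl_symm h d a, Dl_symm h c b,
    Dl_symm h d b, Dl_symm h d c, pp_symm h b a, pp_symm h c a, pp_symm h d a, pp_symm h c b,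
    pp_symm h d b, pp_symm h d c] at Da Db Dc Dd ⊢
  linear_combination (-sn N a) * Da - (sn N b) * Db + (sn N c) * Dc + (sn N d) * Dd

theorem main_id [CharZero L] {a b c d : Fin 4} (D : Dis a b c d) (hn : ∀ i, sn N i ≠ 0)
    (hab : Dl x a b ≠ 0) (hcd : Dl x c d ≠ 0) :
    2 * ((sn N a + e) * (U x a)⁻¹ + (sn N b + e) * (U x b)⁻¹) * gg N x a b +
      2 * ((sn N c + e) * (U x c)⁻¹ + (sn N d + e) * (U x d)⁻¹) * gg N x c d =
      c2 N e x a b + c2 N e x a c + c2 N e x a d + c2 N e x b c + c2 N e x b d + c2 N e x c d +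
      (c1 N e x a + c1 N e x b + c1 N e x c + c1 N e x d) -
      8 * (((sn N a + e) * (U x a)⁻¹ + (sn N b + e) * (U x b)⁻¹) * (sn N a * sn N b)) -
      8 * (((sn N c + e) * (U x c)⁻¹ + (sn N d + e) * (U x d)⁻¹) * (sn N c * sn N d)) -
      (AA N e x a c * Sg x a c + AA N e x a d * Sg x a d + AA N e x b c * Sg x b c +
        AA N e x b d * Sg x b d) -
      (RR N x a b c + RR N x a b d + RR N x c d a + RR N x c d b) := by
  have D1 := D
  obtain ⟨h1, h2, h3, h4, h5, h6⟩ := D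
  have Dac : Dis a c b d := ⟨h2, h1, h3, h4.symm, h6, h5⟩
  have Dad : Dis a d b c := ⟨h3, h1, h2, h5.symm, h6.symm, h4⟩
  have Dbc : Dis b c a d := ⟨h4, h1.symm, h5, h2.symm, h6, h3⟩
  have Dbd : Dis b d a c := ⟨h5, h1.symm, h4, h3.symm, h6.symm, h2⟩
  have Dcd : Dis c d a b := ⟨h6, h2.symm, h4.symm, h3.symm, h5.symm, h1⟩
  have Dba : Dis b a c d := ⟨h1.symm, h4, h5, h2, h3, h6⟩
  have Dca : Dis c a b d := ⟨h2.symm, h4.symm, h6, h1, h3, h5⟩
  have Dda : Dis d a b c := ⟨h3.symm, h5.symm, h6.symm, h1, h2, h4⟩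
  have Pab := e1' hN h h1 (hn a) (hn b) hab
  have Pcd := e1' hN h h6 (hn c) (hn d) hcd
  have Qab := e2 hN h h1 (hn a) (hn b)
  have Qac := e2 hN h h2 (hn a) (hn c)
  have Qad := e2 hN h h3 (hn a) (hn d)
  have Qbc := e2 hN h h4 (hn b) (hn c)
  have Qbd := e2 hN h h5 (hn b) (hn d)
  have Qcd := e2 hN h h6 (hn c) (hn d)
  have Wa := eW hN h a (hn a)
  have Wb := eW hN h b (hn b)
  have Wc := eW hN h c (hn c)
  have Wd := eW hN h d (hn d)
  rw [sum4_two D1] at Pab Qab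
  rw [sum4_two Dcd] at Pcd Qcd
  rw [sum4_two Dac] at Qac
  rw [sum4_two Dad] at Qad
  rw [sum4_two Dbc] at Qbc
  rw [sum4_two Dbd] at Qbd
  rw [sum4_one D1] at Wa
  rw [sum4_one Dba] at Wb
  rw [sum4_one Dca] at Wc
  rw [sum4_one Dda] at Wd
  simp only [gg, c1, c2, AA, RR, QQ, tp, Dl_symm h c a, Dl_symm h d a,
    Dl_symm h c b, Dl_symm h d b, pp_symm h b a, pp_symm h c a, pp_symm h d a,
    pp_symm h c b, pp_symm h d b, pp_symm h d c, Sg_symm h b a, Sg_symm h c a, Sg_symm h d a,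
    Sg_symm h c b, Sg_symm h d b, Sg_symm h d c, X_symm h b a, X_symm h c a, X_symm h d a,
    X_symm h c b, X_symm h d b, X_symm h d c, Z_symm h b a, Z_symm h c a, Z_symm h d a,
    Z_symm h c b, Z_symm h d b, Z_symm h d c] at Pab Pcd Qab Qac Qad Qbc Qbd Qcd Wa Wb Wc Wd ⊢
  generalize bb N e = B at *
  generalize N none = m at *
  generalize sn N a = na at *
  generalize sn N b = nb at *
  generalize sn N c = nc at *
  generalize sn N d = nd at *
  generalize (pp x a b)⁻¹ = qab at *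
  generalize (pp x a c)⁻¹ = qac at *
  generalize (pp x a d)⁻¹ = qad at *
  generalize (pp x b c)⁻¹ = qbc at *
  generalize (pp x b d)⁻¹ = qbd at *
  generalize (pp x c d)⁻¹ = qcd at *
  generalize (U x a)⁻¹ = ua at *
  generalize (U x b)⁻¹ = ub at *
  generalize (U x c)⁻¹ = uc at *
  generalize (U x d)⁻¹ = ud at *
  linear_combination (-1 : L) * Pab - Pcd + na * nb * Qab + na * nc * Qac + na * nd * Qad +
    nb * nc * Qbc + nb * nd * Qbd + nc * nd * Qcd + na * (W x a)⁻¹ * Wa + nb * (W x b)⁻¹ * Wb +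
    nc * (W x c)⁻¹ * Wc + nd * (W x d)⁻¹ * Wd

end

/-! ### two and three U-blocks -/

theorem univ3 : ∀ a b c : Fin 3, a ≠ b → a ≠ c → b ≠ c →
    (Finset.univ : Finset (Fin 3)) = {a, b, c} := by
  decide

theorem exists_c3 : ∀ a b : Fin 3, a ≠ b → ∃ c, a ≠ c ∧ b ≠ c := by
  decide

theorem univ2 : ∀ a b : Fin 2, a ≠ b → (Finset.univ : Finset (Fin 2)) = {a, b} := by
  decide

theorem sum3_one {A : Type*} [AddCommMonoid A] {a b c : Fin 3} (h1 : a ≠ b) (h2 : a ≠ c)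
    (h3 : b ≠ c) (G : Fin 3 → A) : (∑ l, if l = a then 0 else G l) = G b + G c := by
  rw [univ3 a b c h1 h2 h3]
  rw [Finset.sum_insert, Finset.sum_insert, Finset.sum_singleton] <;>
    simp [h1, h2, h3, h1.symm, h2.symm]

theorem sum2_one {A : Type*} [AddCommMonoid A] {a b : Fin 2} (h1 : a ≠ b)
    (G : Fin 2 → A) : (∑ l, if l = a then 0 else G l) = G b := by
  rw [univ2 a b h1]
  rw [Finset.sum_insert, Finset.sum_singleton] <;>
    simp [h1, h1.symm]

theorem kdiff3 {L : Type*} [Field L] {N : Pb 3 → L} (hN : ∀ p, N (fl p) = N p) {e : L}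
    {x y : Pb 3 → Pb 3 → L} (h : Sys N e x y) {a b c : Fin 3} (h1 : a ≠ b) (h2 : a ≠ c)
    (h4 : b ≠ c) (hn : ∀ i, sn N i ≠ 0) (hn' : ∀ i, sn N i + e ≠ 0) :
    4 * gg N x a b = kk N e x a + kk N e x b - kk N e x c -
      (ck N x a b + ck N x a c) - (ck N x b a + ck N x b c) +
      (ck N x c a + ck N x c b) := by
  have Da := eK hN h a (hn a) (hn' a)
  have Db := eK hN h b (hn b) (hn' b)
  have Dc := eK hN h c (hn c) (hn' c)
  rw [sum3_one h1 h2 h4] at Da
  rw [sum3_one h1.symm h4 h2] at Db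
  rw [sum3_one h2.symm h4.symm h1] at Dc
  simp only [gg, kk, ck, Dl_symm h b a, Dl_symm h c a, Dl_symm h c b,
    pp_symm h b a, pp_symm h c a, pp_symm h c b] at Da Db Dc ⊢
  linear_combination (-sn N a) * Da - (sn N b) * Db + (sn N c) * Dc

theorem kdiff2 {L : Type*} [Field L] {N : Pb 2 → L} (hN : ∀ p, N (fl p) = N p) {e : L}
    {x y : Pb 2 → Pb 2 → L} (h : Sys N e x y) {a b : Fin 2} (h1 : a ≠ b)
    (hn : ∀ i, sn N i ≠ 0) (hn' : ∀ i, sn N i + e ≠ 0) :
    2 * gg N x a b = kk N e x a - ck N x a b := by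
  have Da := eK hN h a (hn a) (hn' a)
  rw [sum2_one h1] at Da
  simp only [gg, kk, ck] at Da ⊢
  linear_combination (-sn N a) * Da

end Pool.Agent.H98.BC
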