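import Pool.Agent.H43.BC.Defs

/-!
# Module MapS: the system under injective ring homomorphisms
-/

set_option autoImplicit false

namespace Pool.Agent.H98.BC

open Pool.Agent.H43.BC

variable {k : ℕ} {R S : Type*} [CommRing R] [CommRing S]

theorem dm_map (f : R →+* S) (N : Pb k → R) (e : R) (a b : Pb k) :
    dm (fun p => f (N p)) (f e) a b = f (dm N e a b) := by
  unfold dm
  split_ifs
  · rw [map_mul, map_add]
  · rw [map_mul, map_add, map_zero]

theorem wt_map (f : R →+* S) (N : Pb k → R) (e : R) (a b c : Pb k) :
    wt (fun p => f (N p)) (f e) a b c = f (wt N e a b c) := by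
  unfold wt
  split_ifs <;> simp only [map_add, map_zero]

theorem eqn_map (f : R →+* S) (N : Pb k → R) (e : R) (x : Pb k → Pb k → R) (a b : Pb k) :
    f (dm N e a b * (2 * ((∑ c, N c) + 2 * e) - x a b)) =
      dm (fun p => f (N p)) (f e) a b * (2 * ((∑ c, f (N c)) + 2 * f e) - f (x a b)) := by
  rw [dm_map]
  simp only [map_mul, map_sub, map_add, map_sum, map_ofNat]

theorem eqn_map' (f : R →+* S) (N : Pb k → R) (e : R) (x y : Pb k → Pb k → R) (a b : Pb k) :
    f (∑ c, if c = a ∨ c = b then 0 else
      dm N e a b * wt N e a b c * (x a c ^ 2 + x b c ^ 2 - x a b ^ 2) * (y a c * y b c)) =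
      ∑ c, if c = a ∨ c = b then 0 else
      dm (fun p => f (N p)) (f e) a b * wt (fun p => f (N p)) (f e) a b c *
        (f (x a c) ^ 2 + f (x b c) ^ 2 - f (x a b) ^ 2) * (f (y a c) * f (y b c)) := by
  rw [map_sum]
  refine Finset.sum_congr rfl fun c _ => ?_
  rw [dm_map, wt_map]
  split_ifs
  · exact map_zero f
  · simp only [map_mul, map_sub, map_add, map_pow]

/-- `Sys` is preserved by injective ring homomorphisms. -/
theorem sys_map (f : R →+* S) (hf : Function.Injective f) {N : Pb k → R} {e : R}
    {x y : Pb k → Pb k → R} (h : Sys N e x y) :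
    Sys (fun p => f (N p)) (f e) (fun a b => f (x a b)) (fun a b => f (y a b)) where
  symm a b := congrArg f (h.symm a b)
  flip a b := congrArg f (h.flip a b)
  inv a b := by
    rw [← map_mul, h.inv, map_one]
  diag a := by
    rw [h.diag, map_one]
  eqn a b hab := by
    rw [← eqn_map f N e x, ← eqn_map' f N e x y, h.eqn a b hab]
  absent a b hab h0 := by
    change f (x a b) = 1
    rw [dm_map] at h0
    rw [h.absent a b hab (hf (h0.trans (map_zero f).symm)), map_one]

/-- `Sys` is reflected by injective ring homomorphisms. -/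
theorem sys_of_map (f : R →+* S) (hf : Function.Injective f) {N : Pb k → R} {e : R}
    {x y : Pb k → Pb k → R}
    (h : Sys (fun p => f (N p)) (f e) (fun a b => f (x a b)) (fun a b => f (y a b))) :
    Sys N e x y where
  symm a b := hf (h.symm a b)
  flip a b := hf (h.flip a b)
  inv a b := hf (by rw [map_mul, map_one]; exact h.inv a b)
  diag a := hf (by rw [map_one]; exact h.diag a)
  eqn a b hab := hf (by rw [eqn_map f N e x, eqn_map' f N e x y]; exact h.eqn a b hab)
  absent a b hab h0 := hf (by
    rw [map_one]
    exact h.absent a b hab (by rw [dm_map, h0, map_zero]))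

/-- a ring homomorphism preserves everything except `absent` -/
theorem sys_map' (f : R →+* S) {N : Pb k → R} {e : R} {x y : Pb k → Pb k → R}
    (h : Sys N e x y) (h0 : ∀ a b, a ≠ b → f (dm N e a b) = 0 → f (x a b) = 1) :
    Sys (fun p => f (N p)) (f e) (fun a b => f (x a b)) (fun a b => f (y a b)) where
  symm a b := congrArg f (h.symm a b)
  flip a b := congrArg f (h.flip a b)
  inv a b := by
    rw [← map_mul, h.inv, map_one]
  diag a := by
    rw [h.diag, map_one]
  eqn a b hab := by
    rw [← eqn_map f N e x, ← eqn_map' f N e x y, h.eqn a b hab]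
  absent a b hab h1 := by
    rw [dm_map] at h1
    exact h0 a b hab h1

end Pool.Agent.H98.BC
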