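import Pool.Agent.H98.BC.MapS

/-!
# Module Ultra: the ultraproduct

If for every bound `B` there are block sizes without relation up to `B` with infinitely many positive
solutions, then there is a field of characteristic 0 with block sizes without any integer relation and
infinitely many solutions; the number `∑ (n_i + e) / u_i` is not zero at these solutions.
-/

set_option autoImplicit false

namespace Pool.Agent.H98.BC

open Pool.Agent.H43.BC

/-- no integer relation at all -/
def Indep {k : ℕ} {F : Type*} [Field F] (N : Pb k → F) (e : F) : Prop :=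
  ∀ (w : Fin k → Fin k → ℤ) (v t : Fin k → ℤ),
    (∑ i, ∑ j ∈ Finset.Ioi i, (w i j : F) * (N (some (i, true)) * N (some (j, true)))) +
      (∑ i, (v i : F) * (N (some (i, true)) * (N (some (i, true)) + e))) +
      (∑ i, (t i : F) * (N (some (i, true)) * N none)) = 0 →
    (∀ i j, i < j → w i j = 0) ∧ (∀ i, v i = 0) ∧ (N none ≠ 0 → ∀ i, t i = 0)

theorem ultraB {k : ℕ} (hk : 0 < k) (e : ℤ) (he1 : e = 1 ∨ e = -1) (h : ∀ B : ℕ, ∃ (n : Fin k → ℕ) (m : ℕ),
      (∀ i, 0 < n i) ∧ Stmt.NoRelation e B n m ∧
      {p : (Pb k → Pb k → ℝ) × (Pb k → Pb k → ℝ) |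
        Sys (fun q => (NN n m q : ℝ)) (e : ℝ) p.1 p.2 ∧ ∀ a b, 0 < p.1 a b}.Infinite) :
    ∃ (F : Type) (_ : Field F) (_ : CharZero F) (N : Pb k → F), (∀ p, N (fl p) = N p) ∧
      Indep N (e : F) ∧
      {p : (Pb k → Pb k → F) × (Pb k → Pb k → F) | Sys N (e : F) p.1 p.2 ∧
        ∑ i, (N (some (i, true)) + e) * p.2 (some (i, true)) (some (i, false)) ≠ 0}.Infinite := by
  classical
  choose n m hpos hrel hinf using h
  have hseq : ∀ r : ℕ, ∃ q : ℕ → (Pb k → Pb k → ℝ) × (Pb k → Pb k → ℝ),
      Function.Injective q ∧ ∀ j, Sys (fun i => (NN (n r) (m r) i : ℝ)) (e : ℝ) (q j).1 (q j).2 ∧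
        ∀ a b, 0 < (q j).1 a b := by
    intro r
    let E := Set.Infinite.natEmbedding _ (hinf r)
    refine ⟨fun j => (E j).1, ?_, fun j => (E j).2⟩
    intro a b hab
    exact E.injective (Subtype.ext hab)
  choose q hq1 hq2 using hseq
  let U : Ultrafilter ℕ := Filter.hyperfilter ℕ
  let φ : (ℕ → ℝ) →+* Filter.Germ (U : Filter ℕ) ℝ := Filter.Germ.coeRingHom (U : Filter ℕ)
  have hφ : ∀ f : ℕ → ℝ, φ f = (f : Filter.Germ (U : Filter ℕ) ℝ) := fun f => rfl
  have heq : ∀ f g : ℕ → ℝ, φ f = φ g → ∀ᶠ r in (U : Filter ℕ), f r = g r := by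
    intro f g hfg
    rw [hφ, hφ] at hfg
    exact Filter.Germ.coe_eq.1 hfg
  have heq' : ∀ f g : ℕ → ℝ, (∀ᶠ r in (U : Filter ℕ), f r = g r) → φ f = φ g := by
    intro f g hfg
    rw [hφ, hφ]
    exact Filter.Germ.coe_eq.2 hfg
  let F := Filter.Germ (U : Filter ℕ) ℝ
  have hge : ∀ B : ℕ, ∀ᶠ r in (U : Filter ℕ), B ≤ r := by
    intro B
    exact Nat.hyperfilter_le_atTop (Filter.eventually_ge_atTop B)
  have hchar : CharZero F := by
    refine ⟨fun a b hab => ?_⟩
    have h1 : φ (fun _ => (a : ℝ)) = φ (fun _ => (b : ℝ)) := by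
      have e1 : (fun _ : ℕ => (a : ℝ)) = ((a : ℕ) : ℕ → ℝ) := rfl
      have e2 : (fun _ : ℕ => (b : ℝ)) = ((b : ℕ) : ℕ → ℝ) := rfl
      rw [e1, e2, map_natCast, map_natCast]
      exact hab
    obtain ⟨r, hr⟩ := (heq _ _ h1).exists
    exact_mod_cast hr
  -- the block sizes
  let N : Pb k → F := fun p => φ (fun r => (NN (n r) (m r) p : ℝ))
  have he : (e : F) = φ (fun _ => (e : ℝ)) := by
    have e1 : (fun _ : ℕ => (e : ℝ)) = ((e : ℤ) : ℕ → ℝ) := rfl
    rw [e1, map_intCast]
  have hsmall : ∀ r, 1 ≤ r → ∀ i, n r i + e ≠ 0 := by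
    intro r hr i h0
    have h1 := hrel r 0 (fun j => if j = i then 1 else 0) 0 (by simp) (fun j => by
      split_ifs
      · simpa using hr
      · simp) (by simp) (by
        have h2 : (∑ j, (if j = i then (1 : ℤ) else 0) * ((n r j : ℤ) * (n r j + e))) = 0 := by
          rw [Finset.sum_eq_single i]
          · rw [h0]; ring
          · intro j _ hj; rw [if_neg hj, zero_mul]
          · intro hj; exact absurd (Finset.mem_univ _) hj
        rw [h2]
        simp)
    have h3 := h1.2.1 i
    simp at h3
  refine ⟨F, inferInstance, hchar, N, ?_, ?_, ?_⟩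
  · intro p
    rcases p with _ | ⟨i, b⟩
    · rfl
    · rfl
  · intro w v t hw
    have h1 : φ ((∑ i, ∑ j ∈ Finset.Ioi i, fun r => (w i j : ℝ) * ((n r i : ℝ) * (n r j : ℝ))) +
        (∑ i, fun r => (v i : ℝ) * ((n r i : ℝ) * ((n r i : ℝ) + (e : ℝ)))) +
        (∑ i, fun r => (t i : ℝ) * ((n r i : ℝ) * (m r : ℝ)))) = φ 0 := by
      rw [map_zero, ← hw, map_add, map_add, map_sum, map_sum, map_sum]
      congr 1
      congr 1
      apply Finset.sum_congr rfl
      intro i _
      rw [map_sum]
      apply Finset.sum_congr rfl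
      intro j _
      have e1 : (fun r => (w i j : ℝ) * ((n r i : ℝ) * (n r j : ℝ))) =
        ((w i j : ℤ) : ℕ → ℝ) * ((fun r => (n r i : ℝ)) * (fun r => (n r j : ℝ))) := rfl
      rw [e1, map_mul, map_mul, map_intCast]
      rfl
    obtain ⟨B, hB1, hB2, hB3⟩ : ∃ B : ℕ, (∀ i j, |w i j| ≤ B) ∧ (∀ i, |v i| ≤ B) ∧
        ∀ i, |t i| ≤ B := by
      refine ⟨(∑ i, ∑ j, (w i j).natAbs) + (∑ i, (v i).natAbs) + ∑ i, (t i).natAbs,
        fun i j => ?_, fun i => ?_, fun i => ?_⟩
      · have h2 : (w i j).natAbs ≤ ∑ i, ∑ j, (w i j).natAbs :=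
          (Finset.single_le_sum (f := fun j => (w i j).natAbs) (fun _ _ => Nat.zero_le _)
            (Finset.mem_univ j)).trans
          (Finset.single_le_sum (f := fun i => ∑ j, (w i j).natAbs) (fun _ _ => Nat.zero_le _)
            (Finset.mem_univ i))
        rw [Int.abs_eq_natAbs]
        exact_mod_cast (by omega)
      · have h2 : (v i).natAbs ≤ ∑ i, (v i).natAbs :=
          Finset.single_le_sum (f := fun i => (v i).natAbs) (fun _ _ => Nat.zero_le _)
            (Finset.mem_univ i)
        rw [Int.abs_eq_natAbs]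
        exact_mod_cast (by omega)
      · have h2 : (t i).natAbs ≤ ∑ i, (t i).natAbs :=
          Finset.single_le_sum (f := fun i => (t i).natAbs) (fun _ _ => Nat.zero_le _)
            (Finset.mem_univ i)
        rw [Int.abs_eq_natAbs]
        exact_mod_cast (by omega)
    have h2 := heq _ _ h1
    have key : ∀ r, B ≤ r → ((∑ i, ∑ j ∈ Finset.Ioi i,
        fun r => (w i j : ℝ) * ((n r i : ℝ) * (n r j : ℝ))) +
        (∑ i, fun r => (v i : ℝ) * ((n r i : ℝ) * ((n r i : ℝ) + (e : ℝ)))) +
        (∑ i, fun r => (t i : ℝ) * ((n r i : ℝ) * (m r : ℝ)))) r = (0 : ℕ → ℝ) r →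
        (∀ i j, i < j → w i j = 0) ∧ (∀ i, v i = 0) ∧ (m r ≠ 0 → ∀ i, t i = 0) := by
      intro r hr h3
      simp only [Finset.sum_apply, Pi.add_apply, Pi.zero_apply] at h3
      refine hrel r w v t (fun i j => (hB1 i j).trans (by exact_mod_cast hr))
        (fun i => (hB2 i).trans (by exact_mod_cast hr))
        (fun i => (hB3 i).trans (by exact_mod_cast hr)) ?_
      exact_mod_cast h3
    obtain ⟨r, hr1, hr2⟩ := (h2.and (hge B)).exists
    refine ⟨(key r hr2 hr1).1, (key r hr2 hr1).2.1, fun hm => ?_⟩
    have h3 : ∃ᶠ r in (U : Filter ℕ), m r ≠ 0 := by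
      intro hcon
      apply hm
      change φ (fun r => (m r : ℝ)) = 0
      rw [← map_zero φ]
      apply heq'
      filter_upwards [hcon] with r hr
      rw [not_not] at hr
      rw [hr]
      simp
    obtain ⟨r, hr3, hr4, hr5⟩ := (h3.and_eventually (h2.and (hge B))).exists
    exact (key r hr5 hr4).2.2 hr3
  · let G : ℕ → (Pb k → Pb k → F) × (Pb k → Pb k → F) := fun j =>
      (fun a b => φ (fun r => (q r j).1 a b), fun a b => φ (fun r => (q r j).2 a b))
    apply Set.infinite_of_injective_forall_mem (f := G)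
    · intro j j' hjj
      by_contra hne
      have h1 : ∀ a b, ∀ᶠ r in (U : Filter ℕ), (q r j).1 a b = (q r j').1 a b := fun a b =>
        heq _ _ (congrFun (congrFun (congrArg Prod.fst hjj) a) b)
      have h2 : ∀ a b, ∀ᶠ r in (U : Filter ℕ), (q r j).2 a b = (q r j').2 a b := fun a b =>
        heq _ _ (congrFun (congrFun (congrArg Prod.snd hjj) a) b)
      have h3 : ∀ᶠ r in (U : Filter ℕ), ∀ a b, (q r j).1 a b = (q r j').1 a b := by
        rw [Filter.eventually_all]
        intro a
        rw [Filter.eventually_all]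
        intro b
        exact h1 a b
      have h4 : ∀ᶠ r in (U : Filter ℕ), ∀ a b, (q r j).2 a b = (q r j').2 a b := by
        rw [Filter.eventually_all]
        intro a
        rw [Filter.eventually_all]
        intro b
        exact h2 a b
      obtain ⟨r, hr3, hr4⟩ := (h3.and h4).exists
      apply hne
      apply hq1 r
      ext a b
      · exact hr3 a b
      · exact hr4 a b
    · intro j
      refine ⟨?_, ?_⟩
      · -- the system
        have hS : Sys (fun p => fun r => (NN (n r) (m r) p : ℝ)) (fun _ : ℕ => (e : ℝ))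
            (fun a b r => (q r j).1 a b) (fun a b r => (q r j).2 a b) :=
          { symm := fun a b => funext fun r => (hq2 r j).1.symm a b
            flip := fun a b => funext fun r => (hq2 r j).1.flip a b
            inv := fun a b => funext fun r => (hq2 r j).1.inv a b
            diag := fun a => funext fun r => (hq2 r j).1.diag a
            eqn := fun a b hab => funext fun r => by
              have h1 := (hq2 r j).1.eqn a b hab
              have h2 := eqn_map (Pi.evalRingHom (fun _ : ℕ => ℝ) r)
                (fun p => fun r => (NN (n r) (m r) p : ℝ)) (fun _ : ℕ => (e : ℝ))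
                (fun a b r => (q r j).1 a b) a b
              have h3 := eqn_map' (Pi.evalRingHom (fun _ : ℕ => ℝ) r)
                (fun p => fun r => (NN (n r) (m r) p : ℝ)) (fun _ : ℕ => (e : ℝ))
                (fun a b r => (q r j).1 a b) (fun a b r => (q r j).2 a b) a b
              exact (h2.trans h1).trans h3.symm
            absent := fun a b hab h0 => funext fun r => by
              refine (hq2 r j).1.absent a b hab ?_
              have h1 := dm_map (Pi.evalRingHom (fun _ : ℕ => ℝ) r)
                (fun p => fun r => (NN (n r) (m r) p : ℝ)) (fun _ : ℕ => (e : ℝ)) a b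
              rw [h0, map_zero] at h1
              exact h1 }
        have h1 := sys_map' φ hS (fun a b hab h0 => by
          have h2 : ∀ᶠ r in (U : Filter ℕ), dm (fun p => fun r => (NN (n r) (m r) p : ℝ))
              (fun _ : ℕ => (e : ℝ)) a b r = 0 := by
            have := heq _ 0 (h0.trans (map_zero φ).symm)
            exact this
          have h3 : φ (fun r => (q r j).1 a b) = φ 1 := by
            apply heq'
            filter_upwards [h2] with r hr
            refine (hq2 r j).1.absent a b hab ?_
            have h4 := dm_map (Pi.evalRingHom (fun _ : ℕ => ℝ) r)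
                (fun p => fun r => (NN (n r) (m r) p : ℝ)) (fun _ : ℕ => (e : ℝ)) a b
            exact h4.trans hr
          rw [map_one] at h3
          exact h3)
        rw [← he] at h1
        exact h1
      · -- the sum is not zero
        intro h0
        have h1 : φ (∑ i, fun r => ((n r i : ℝ) + (e : ℝ)) *
            (q r j).2 (some (i, true)) (some (i, false))) = φ 0 := by
          rw [map_zero, ← h0, map_sum]
          apply Finset.sum_congr rfl
          intro i _
          have e1 : (fun r => ((n r i : ℝ) + (e : ℝ)) *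
            (q r j).2 (some (i, true)) (some (i, false))) =
            ((fun r => (n r i : ℝ)) + ((e : ℤ) : ℕ → ℝ)) *
            (fun r => (q r j).2 (some (i, true)) (some (i, false))) := rfl
          rw [e1, map_mul, map_add, map_intCast]
          rfl
        obtain ⟨r, hr1, hr2⟩ := ((heq _ _ h1).and (hge 1)).exists
        simp only [Finset.sum_apply, Pi.zero_apply] at hr1
        have h2 : ∀ i, 0 < (n r i : ℝ) + (e : ℝ) := by
          intro i
          have a1 := hpos r i
          have a2 := hsmall r hr2 i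
          have a3 : 0 < (n r i : ℤ) + e := by omega
          exact_mod_cast a3
        have h3 : ∀ a b, 0 < (q r j).2 a b := by
          intro a b
          have h4 := (hq2 r j).1.inv a b
          have h5 := (hq2 r j).2 a b
          by_contra hcon
          push Not at hcon
          nlinarith
        have h4 : 0 < ∑ i, ((n r i : ℝ) + (e : ℝ)) *
            (q r j).2 (some (i, true)) (some (i, false)) := by
          apply Finset.sum_pos
          · intro i _
            exact mul_pos (h2 i) (h3 _ _)
          · exact ⟨⟨0, hk⟩, Finset.mem_univ _⟩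
        exact absurd hr1 h4.ne'

end Pool.Agent.H98.BC
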