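import Pool.Agent.H98.BC.Core
import Pool.Agent.H98.BC.MapS
import Pool.Agent.H98.BC.Ultra

/-!
# Module OrdR: at every place `X Z`, `U`, `W` have neither zeros nor poles

The constancy of the volume (`vol`), its residues (`log_res`), and the independence of the
dimensions.
-/

set_option autoImplicit false
set_option linter.unusedSectionVars false

namespace Pool.Agent.H98.BC

open Pool.Agent.H43.BC Pool.Agent.H98.FL Pool.Agent.H98.FL.LogResAux

theorem sum_sq {A : Type*} [AddCommMonoid A] {k : ℕ} (G : Fin k → Fin k → A) :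
    ∑ i, ∑ j, G i j = ∑ i, G i i + ∑ i, ∑ j ∈ Finset.Ioi i, (G i j + G j i) := by
  have h1 : ∀ i, ∑ j, G i j = G i i + (∑ j ∈ Finset.Ioi i, G i j + ∑ j ∈ Finset.Iio i, G i j) := by
    intro i
    have hu : (Finset.univ : Finset (Fin k)) = {i} ∪ (Finset.Ioi i ∪ Finset.Iio i) := by
      ext j
      simp only [Finset.mem_univ, Finset.mem_union, Finset.mem_Ioi, Finset.mem_Iio,
        Finset.mem_singleton, true_iff]
      rcases lt_trichotomy i j with h | h | h
      · exact Or.inr (Or.inl h)
      · exact Or.inl h.symm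
      · exact Or.inr (Or.inr h)
    rw [hu, Finset.sum_union, Finset.sum_union, Finset.sum_singleton]
    · rw [Finset.disjoint_left]
      intro j h1 h2
      exact absurd (Finset.mem_Ioi.1 h1) (not_lt_of_gt (Finset.mem_Iio.1 h2))
    · rw [Finset.disjoint_left]
      intro j h1 h2
      rw [Finset.mem_singleton] at h1
      subst h1
      simp at h2
  have h2 : ∑ i, ∑ j ∈ Finset.Iio i, G i j = ∑ i, ∑ j ∈ Finset.Ioi i, G j i := by
    rw [Finset.sum_comm' (t' := Finset.univ) (s' := fun j => Finset.Ioi j)]
    intro i j; simp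
  rw [Finset.sum_congr rfl fun i _ => h1 i, Finset.sum_add_distrib, Finset.sum_add_distrib, h2]
  simp only [Finset.sum_add_distrib]

section

variable {F M L : Type} [Field F] [CharZero F] [Field M] [CharZero M] [Field L] [Algebra M L]

/-- the numbers `n_i` and `n_i + e` are not zero -/
theorem indep_ne {k : ℕ} {N : Pb k → F} {e : F} (h : Indep N e) (i : Fin k) :
    N (some (i, true)) ≠ 0 ∧ N (some (i, true)) + e ≠ 0 := by
  have h1 : N (some (i, true)) * (N (some (i, true)) + e) ≠ 0 := by
    intro h0
    have h2 := h 0 (fun j => if j = i then 1 else 0) 0 (by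
      have h3 : (∑ j, (((if j = i then (1 : ℤ) else 0) : ℤ) : F) * (N (some (j, true)) *
          (N (some (j, true)) + e))) = 0 := by
        rw [Finset.sum_eq_single i]
        · rw [h0]; ring
        · intro j _ hj; rw [if_neg hj]; simp
        · intro hj; exact absurd (Finset.mem_univ _) hj
      rw [h3]
      simp)
    have h4 := h2.2.1 i
    simp at h4
  exact ⟨left_ne_zero_of_mul h1, right_ne_zero_of_mul h1⟩

theorem ord_rel {k : ℕ} (O : Ord M L) (D : Derivation M L L) (hD : D ≠ 0) {N : Pb k → F}
    (hN : ∀ p, N (fl p) = N p) {e : F} (hI : Indep N e) (j : F →+* M)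
    {x y : Pb k → Pb k → L}
    (h : Sys (fun p => algebraMap M L (j (N p))) (algebraMap M L (j e)) x y) :
    (∀ i l : Fin k, i < l → O.ord (X x i l) + O.ord (Z x i l) = 0) ∧
      (∀ i, O.ord (U x i) = 0) ∧ ∀ i, O.ord (W x i) = 0 := by
  classical
  have hN1 : ∀ p, (fun p => j (N p)) (fl p) = (fun p => j (N p)) p := fun p => congrArg j (hN p)
  have hN2 : ∀ p, (fun p => algebraMap M L (j (N p))) (fl p) =
      (fun p => algebraMap M L (j (N p))) p := fun p => congrArg (algebraMap M L) (hN1 p)
  have hv := vol (F := M) (fun p => j (N p)) hN1 (j e) x y h D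
  rw [← Fintype.sum_prod_type' (f := fun a b => algebraMap M L (de (fun p => j (N p)) (j e) a b) *
    (D (x a b) / x a b))] at hv
  have hr := log_res O D hD (fun q : Pb k × Pb k => de (fun p => j (N p)) (j e) q.1 q.2)
    (fun q => x q.1 q.2) (fun q => x_ne h _ _) hv
  rw [Fintype.sum_prod_type' (f := fun a b => O.ord (x a b) • de (fun p => j (N p)) (j e) a b)]
    at hr
  set n : Fin k → F := fun i => N (some (i, true)) with hn
  have hNf : ∀ i, N (some (i, false)) = n i := fun i => hN (some (i, true))
  have key : ∑ a, ∑ b, O.ord (x a b) • de (fun p => j (N p)) (j e) a b =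
      2 * j ((∑ i, ∑ l ∈ Finset.Ioi i, (((2 * (O.ord (X x i l) + O.ord (Z x i l)) : ℤ)) : F) *
        (n i * n l)) + (∑ i, ((O.ord (U x i) : ℤ) : F) * (n i * (n i + e))) +
        (∑ i, ((2 * O.ord (W x i) : ℤ) : F) * (n i * N none))) := by
    set f : Pb k → Pb k → M := fun a b => O.ord (x a b) • de (fun p => j (N p)) (j e) a b with hf
    have f00 : f none none = 0 := by simp [hf, de]
    have f0 : ∀ (i : Fin k) (s : Bool), f none (some (i, s)) =
        ((O.ord (W x i) : ℤ) : M) * (j (n i) * j (N none)) := by
      intro i s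
      simp only [hf, zsmul_eq_mul]
      cases s
      · rw [x_nf h]
        simp [de, dm, hNf]
        left
        ring
      · rw [x_nt h]
        simp [de, dm, hn]
        left
        ring
    have f1 : ∀ (i : Fin k) (s : Bool), f (some (i, s)) none =
        ((O.ord (W x i) : ℤ) : M) * (j (n i) * j (N none)) := by
      intro i s
      simp only [hf, zsmul_eq_mul]
      cases s
      · rw [x_fn h]
        simp [de, dm, hNf]
      · simp [de, dm, hn, W]
    have f2 : ∀ (i l : Fin k), f (some (i, true)) (some (l, true)) =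
        if i = l then 0 else ((O.ord (X x i l) : ℤ) : M) * (j (n i) * j (n l)) := by
      intro i l
      simp only [hf, zsmul_eq_mul]
      by_cases hil : i = l
      · simp [de, hil]
      · simp [de, dm, hil, X, hn]
    have f3 : ∀ (i l : Fin k), f (some (i, false)) (some (l, false)) =
        if i = l then 0 else ((O.ord (X x i l) : ℤ) : M) * (j (n i) * j (n l)) := by
      intro i l
      simp only [hf, zsmul_eq_mul]
      rw [x_ff h]
      by_cases hil : i = l
      · simp [de, hil]
      · simp [de, dm, hil, hNf]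
    have f4 : ∀ (i l : Fin k), f (some (i, true)) (some (l, false)) =
        if i = l then ((O.ord (U x i) : ℤ) : M) * (j (n i) * (j (n i) + j e)) else
          ((O.ord (Z x i l) : ℤ) : M) * (j (n i) * j (n l)) := by
      intro i l
      simp only [hf, zsmul_eq_mul]
      by_cases hil : i = l
      · subst hil
        simp [de, dm, U, hNf]
        exact Or.inl (Or.inl rfl)
      · simp [de, dm, hil, Ne.symm hil, Z, hNf]
        exact Or.inl (Or.inl rfl)
    have f5 : ∀ (i l : Fin k), f (some (i, false)) (some (l, true)) =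
        if i = l then ((O.ord (U x i) : ℤ) : M) * (j (n i) * (j (n i) + j e)) else
          ((O.ord (Z x i l) : ℤ) : M) * (j (n i) * j (n l)) := by
      intro i l
      simp only [hf, zsmul_eq_mul]
      rw [x_ft h]
      by_cases hil : i = l
      · subst hil
        simp [de, dm, hNf]
        rfl
      · simp [de, dm, hil, Ne.symm hil, hNf]
        exact Or.inl (Or.inl rfl)
    have g1 : ∀ i l : Fin k, i < l →
        ((if i = l then 0 else ((O.ord (X x i l) : ℤ) : M) * (j (n i) * j (n l))) +
          (if i = l then ((O.ord (U x i) : ℤ) : M) * (j (n i) * (j (n i) + j e)) else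
          ((O.ord (Z x i l) : ℤ) : M) * (j (n i) * j (n l)))) +
        ((if l = i then 0 else ((O.ord (X x l i) : ℤ) : M) * (j (n l) * j (n i))) +
          (if l = i then ((O.ord (U x l) : ℤ) : M) * (j (n l) * (j (n l) + j e)) else
          ((O.ord (Z x l i) : ℤ) : M) * (j (n l) * j (n i)))) =
        j ((((2 * (O.ord (X x i l) + O.ord (Z x i l)) : ℤ)) : F) * (n i * n l)) := by
      intro i l hil
      rw [if_neg hil.ne, if_neg hil.ne, if_neg hil.ne', if_neg hil.ne', X_symm h l i,
        Z_symm h l i]
      simp only [map_mul, map_intCast]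
      push_cast
      ring
    have g2 : ∑ i, ∑ l, ((if i = l then 0 else ((O.ord (X x i l) : ℤ) : M) *
        (j (n i) * j (n l))) +
          (if i = l then ((O.ord (U x i) : ℤ) : M) * (j (n i) * (j (n i) + j e)) else
          ((O.ord (Z x i l) : ℤ) : M) * (j (n i) * j (n l)))) =
        (∑ i, j (((O.ord (U x i) : ℤ) : F) * (n i * (n i + e)))) +
        ∑ i, ∑ l ∈ Finset.Ioi i, j ((((2 * (O.ord (X x i l) + O.ord (Z x i l)) : ℤ)) : F) *
          (n i * n l)) := by
      rw [sum_sq]
      congr 1
      · refine Finset.sum_congr rfl fun i _ => ?_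
        rw [if_pos rfl, if_pos rfl, zero_add]
        simp only [map_mul, map_add, map_intCast]
      · refine Finset.sum_congr rfl fun i _ => Finset.sum_congr rfl fun l hl => ?_
        exact g1 i l (Finset.mem_Ioi.1 hl)
    have g3 : ∑ i, ((O.ord (W x i) : ℤ) : M) * (j (n i) * j (N none)) * 2 =
        ∑ i, j (((2 * O.ord (W x i) : ℤ) : F) * (n i * N none)) := by
      refine Finset.sum_congr rfl fun i _ => ?_
      simp only [map_mul, map_intCast]
      push_cast
      ring
    rw [map_add, map_add, map_sum, map_sum, map_sum]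
    simp only [map_sum]
    rw [← g3]
    have g4 : ∑ a, ∑ b, f a b = 2 * (∑ i, ∑ l, ((if i = l then 0 else
        ((O.ord (X x i l) : ℤ) : M) * (j (n i) * j (n l))) +
          (if i = l then ((O.ord (U x i) : ℤ) : M) * (j (n i) * (j (n i) + j e)) else
          ((O.ord (Z x i l) : ℤ) : M) * (j (n i) * j (n l))))) +
        2 * ∑ i, ((O.ord (W x i) : ℤ) : M) * (j (n i) * j (N none)) * 2 := by
      simp only [sum_pb, f00, f0, f1, f2, f3, f4, f5, zero_add]
      rw [← Finset.sum_add_distrib, Finset.mul_sum, Finset.mul_sum, ← Finset.sum_add_distrib]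
      refine Finset.sum_congr rfl fun i _ => ?_
      simp only [Finset.sum_add_distrib]
      ring
    rw [g4, g2]
    ring
  rw [key] at hr
  have h1 := (mul_eq_zero.1 hr).resolve_left two_ne_zero
  have h2 := (map_eq_zero j).1 h1
  obtain ⟨r1, r2, r3⟩ := hI (fun i l => 2 * (O.ord (X x i l) + O.ord (Z x i l)))
    (fun i => O.ord (U x i)) (fun i => 2 * O.ord (W x i)) h2
  refine ⟨fun i l hil => ?_, r2, fun i => ?_⟩
  · have := r1 i l hil
    omega
  · by_cases hm : N none = 0
    · have h3 : x (some (i, true)) none = 1 := by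
        refine h.absent _ _ (by simp) ?_
        simp [dm, hm]
      have h4 : O.ord (1 : L) = 0 := ord_one O
      rw [W, h3, h4]
    · have := r3 hm i
      omega

end

end Pool.Agent.H98.BC
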