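import Pool.Agent.H98.BC.Eqs

/-!
# Module Red: the equations in sums and differences

`Sg = X + Z`, `Dl = X - Z`, `pp = X Z`.
-/

set_option autoImplicit false

namespace Pool.Agent.H98.BC

open Pool.Agent.H43.BC

variable {k : ℕ} {L : Type*} [Field L]

/-- sum -/
def Sg (x : Pb k → Pb k → L) (i j : Fin k) : L := X x i j + Z x i j
/-- difference -/
def Dl (x : Pb k → Pb k → L) (i j : Fin k) : L := X x i j - Z x i j
/-- product -/
def pp (x : Pb k → Pb k → L) (i j : Fin k) : L := X x i j * Z x i j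
/-- the function of a triangle -/
def QQ (x : Pb k → Pb k → L) (i j l : Fin k) : L :=
  X x i j * X x i l * X x j l + X x i j * Z x i l * Z x j l + Z x i j * X x i l * Z x j l +
    Z x i j * Z x i l * X x j l
/-- inverse of the product of the constants of a triangle -/
def tp (x : Pb k → Pb k → L) (i j l : Fin k) : L :=
  (pp x i j)⁻¹ * (pp x i l)⁻¹ * (pp x j l)⁻¹

section

variable {N : Pb k → L} (hN : ∀ p, N (fl p) = N p) {e : L} {x y : Pb k → Pb k → L}
  (h : Sys N e x y)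

include h

theorem Sg_symm (i j : Fin k) : Sg x i j = Sg x j i := by
  rw [Sg, Sg, X_symm h, Z_symm h]

theorem Dl_symm (i j : Fin k) : Dl x i j = Dl x j i := by
  rw [Dl, Dl, X_symm h, Z_symm h]

theorem pp_symm (i j : Fin k) : pp x i j = pp x j i := by
  rw [pp, pp, X_symm h, Z_symm h]

theorem pp_ne (i j : Fin k) : pp x i j ≠ 0 := mul_ne_zero (X_ne h i j) (Z_ne h i j)

include hN

/-- difference of the equations of `X i j` and `Z i j` -/
theorem e1 [CharZero L] {i j : Fin k} (hij : i ≠ j) (hi : sn N i ≠ 0) (hj : sn N j ≠ 0) :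
    bb N e * (Dl x i j * (pp x i j)⁻¹) = N none * (Dl x i j * ((W x i ^ 2 + W x j ^ 2) *
        (pp x i j)⁻¹ + 1) * ((W x i)⁻¹ * (W x j)⁻¹)) +
      (∑ l, if l = i ∨ l = j then 0 else sn N l * ((pp x i j + pp x i l + pp x j l) *
        tp x i j l / 2 * (Dl x i j * Sg x i l * Sg x j l + Sg x i j * Dl x i l * Dl x j l))) +
      2 * ((sn N i + e) * (U x i)⁻¹ + (sn N j + e) * (U x j)⁻¹) *
        (Sg x i j * Dl x i j * (pp x i j)⁻¹) := by
  have h1 := eqX hN h hij hi hj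
  have h2 := eqZ hN h hij hi hj
  have x0 := X_ne h i j
  have z0 := Z_ne h i j
  have ui := U_ne h i
  have uj := U_ne h j
  have b : ∀ l, (if l = i ∨ l = j then 0 else sn N l * ((pp x i j + pp x i l + pp x j l) *
        tp x i j l / 2 * (Dl x i j * Sg x i l * Sg x j l + Sg x i j * Dl x i l * Dl x j l))) =
      -((X x i j)⁻¹ * (if l = i ∨ l = j then 0 else sn N l * TX x i j l) -
        (Z x i j)⁻¹ * (if l = i ∨ l = j then 0 else sn N l * TZ x i j l)) := by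
    intro l
    by_cases hl : l = i ∨ l = j
    · rw [if_pos hl, if_pos hl, if_pos hl]; ring
    · rw [if_neg hl, if_neg hl, if_neg hl]
      have h3 := bracket1 (X x i j) (Z x i j) (X x i l) (Z x i l) (X x j l) (Z x j l) x0 z0
        (X_ne h i l) (Z_ne h i l) (X_ne h j l) (Z_ne h j l)
      simp only [TX, TZ, pp, tp, Dl, Sg]
      linear_combination sn N l * h3
  rw [Finset.sum_congr rfl fun l _ => b l, Finset.sum_neg_distrib, Finset.sum_sub_distrib,
    ← Finset.mul_sum, ← Finset.mul_sum]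
  have a1 : (X x i j)⁻¹ * (bb N e - X x i j) - (Z x i j)⁻¹ * (bb N e - Z x i j) =
      -(bb N e * (Dl x i j * (pp x i j)⁻¹)) := by
    rw [Dl, pp]; field_simp; ring
  have a2 : (X x i j)⁻¹ * (W x i ^ 2 + W x j ^ 2 - X x i j ^ 2) -
      (Z x i j)⁻¹ * (W x i ^ 2 + W x j ^ 2 - Z x i j ^ 2) =
      -(Dl x i j * ((W x i ^ 2 + W x j ^ 2) * (pp x i j)⁻¹ + 1)) := by
    rw [Dl, pp]; field_simp; ring
  have a3 : (X x i j)⁻¹ * ((U x i ^ 2 + Z x i j ^ 2 - X x i j ^ 2) *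
      ((U x i)⁻¹ * (Z x i j)⁻¹)) - (Z x i j)⁻¹ * ((U x i ^ 2 + X x i j ^ 2 - Z x i j ^ 2) *
      ((U x i)⁻¹ * (X x i j)⁻¹)) = -(2 * (U x i)⁻¹ * (Sg x i j * Dl x i j * (pp x i j)⁻¹)) := by
    rw [Dl, pp, Sg]; field_simp; ring
  have a4 : (X x i j)⁻¹ * ((Z x i j ^ 2 + U x j ^ 2 - X x i j ^ 2) *
      ((Z x i j)⁻¹ * (U x j)⁻¹)) - (Z x i j)⁻¹ * ((X x i j ^ 2 + U x j ^ 2 - Z x i j ^ 2) *
      ((X x i j)⁻¹ * (U x j)⁻¹)) = -(2 * (U x j)⁻¹ * (Sg x i j * Dl x i j * (pp x i j)⁻¹)) := by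
    rw [Dl, pp, Sg]; field_simp; ring
  rw [h1, h2] at a1
  linear_combination a1 - (N none * ((W x i)⁻¹ * (W x j)⁻¹)) * a2 - (sn N i + e) * a3 -
    (sn N j + e) * a4

/-- sum of the equations of `X i j` and `Z i j` -/
theorem e2 {i j : Fin k} (hij : i ≠ j) (hi : sn N i ≠ 0) (hj : sn N j ≠ 0) :
    bb N e * (Sg x i j * (pp x i j)⁻¹) - 2 = N none * (Sg x i j * ((W x i ^ 2 + W x j ^ 2) *
        (pp x i j)⁻¹ - 1) * ((W x i)⁻¹ * (W x j)⁻¹)) +
      (∑ l, if l = i ∨ l = j then 0 else sn N l * ((pp x i l + pp x j l - pp x i j) *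
        tp x i j l * QQ x i j l)) +
      2 * ((sn N i + e) * U x i + (sn N j + e) * U x j) * (pp x i j)⁻¹ := by
  have h1 := eqX hN h hij hi hj
  have h2 := eqZ hN h hij hi hj
  have x0 := X_ne h i j
  have z0 := Z_ne h i j
  have ui := U_ne h i
  have uj := U_ne h j
  have b : ∀ l, (if l = i ∨ l = j then 0 else sn N l * ((pp x i l + pp x j l - pp x i j) *
        tp x i j l * QQ x i j l)) =
      (X x i j)⁻¹ * (if l = i ∨ l = j then 0 else sn N l * TX x i j l) +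
        (Z x i j)⁻¹ * (if l = i ∨ l = j then 0 else sn N l * TZ x i j l) := by
    intro l
    by_cases hl : l = i ∨ l = j
    · rw [if_pos hl, if_pos hl, if_pos hl]; ring
    · rw [if_neg hl, if_neg hl, if_neg hl]
      have h3 := bracket2 (X x i j) (Z x i j) (X x i l) (Z x i l) (X x j l) (Z x j l) x0 z0
        (X_ne h i l) (Z_ne h i l) (X_ne h j l) (Z_ne h j l)
      simp only [TX, TZ, pp, tp, QQ]
      linear_combination (-sn N l) * h3
  rw [Finset.sum_congr rfl fun l _ => b l, Finset.sum_add_distrib,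
    ← Finset.mul_sum, ← Finset.mul_sum]
  have a1 : (X x i j)⁻¹ * (bb N e - X x i j) + (Z x i j)⁻¹ * (bb N e - Z x i j) =
      bb N e * (Sg x i j * (pp x i j)⁻¹) - 2 := by
    rw [Sg, pp]; field_simp; ring
  have a2 : (X x i j)⁻¹ * (W x i ^ 2 + W x j ^ 2 - X x i j ^ 2) +
      (Z x i j)⁻¹ * (W x i ^ 2 + W x j ^ 2 - Z x i j ^ 2) =
      Sg x i j * ((W x i ^ 2 + W x j ^ 2) * (pp x i j)⁻¹ - 1) := by
    rw [Sg, pp]; field_simp; ring
  have a3 : (X x i j)⁻¹ * ((U x i ^ 2 + Z x i j ^ 2 - X x i j ^ 2) *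
      ((U x i)⁻¹ * (Z x i j)⁻¹)) + (Z x i j)⁻¹ * ((U x i ^ 2 + X x i j ^ 2 - Z x i j ^ 2) *
      ((U x i)⁻¹ * (X x i j)⁻¹)) = 2 * U x i * (pp x i j)⁻¹ := by
    rw [pp]; field_simp; ring
  have a4 : (X x i j)⁻¹ * ((Z x i j ^ 2 + U x j ^ 2 - X x i j ^ 2) *
      ((Z x i j)⁻¹ * (U x j)⁻¹)) + (Z x i j)⁻¹ * ((X x i j ^ 2 + U x j ^ 2 - Z x i j ^ 2) *
      ((X x i j)⁻¹ * (U x j)⁻¹)) = 2 * U x j * (pp x i j)⁻¹ := by
    rw [pp]; field_simp; ring
  rw [h1, h2] at a1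
  linear_combination -a1 + (N none * ((W x i)⁻¹ * (W x j)⁻¹)) * a2 + (sn N i + e) * a3 +
    (sn N j + e) * a4

/-- the equation of `U i` -/
theorem eK (i : Fin k) (hi : sn N i ≠ 0) (hi' : sn N i + e ≠ 0) :
    bb N e - U x i = N none * ((2 * W x i ^ 2 - U x i ^ 2) * ((W x i)⁻¹ * (W x i)⁻¹)) +
      ∑ l, if l = i then 0 else 2 * (sn N l * (Dl x i l ^ 2 * (pp x i l)⁻¹ +
        (2 - U x i ^ 2 * (pp x i l)⁻¹))) := by
  rw [eqU hN h i hi hi']
  congr 1
  refine Finset.sum_congr rfl fun l _ => ?_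
  by_cases hl : l = i
  · rw [if_pos hl, if_pos hl]
  · rw [if_neg hl, if_neg hl]
    have x0 := X_ne h i l
    have z0 := Z_ne h i l
    rw [Dl, pp]; field_simp; ring

/-- the equation of `W i` -/
theorem eW (i : Fin k) (hi : sn N i ≠ 0) :
    N none * (bb N e - W x i) = N none * ((sn N i + e) * (U x i * (W x i)⁻¹) +
      ∑ l, if l = i then 0 else sn N l * (Sg x i l * ((W x l)⁻¹ *
        (1 + (W x l ^ 2 - W x i ^ 2) * (pp x i l)⁻¹)))) := by
  rw [eqW hN h i hi]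
  congr 2
  refine Finset.sum_congr rfl fun l _ => ?_
  by_cases hl : l = i
  · rw [if_pos hl, if_pos hl]
  · rw [if_neg hl, if_neg hl]
    have x0 := X_ne h i l
    have z0 := Z_ne h i l
    have w0 := W_ne h l
    rw [Sg, pp]; field_simp; ring

/-- `e1` multiplied by `n_i n_j Sg / Dl` -/
theorem e1' [CharZero L] {i j : Fin k} (hij : i ≠ j) (hi : sn N i ≠ 0) (hj : sn N j ≠ 0)
    (hD : Dl x i j ≠ 0) :
    sn N i * sn N j * (bb N e * (pp x i j)⁻¹ - N none * (((W x i ^ 2 + W x j ^ 2) *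
        (pp x i j)⁻¹ + 1) * ((W x i)⁻¹ * (W x j)⁻¹))) * Sg x i j =
      (∑ l, if l = i ∨ l = j then 0 else sn N i * sn N j * sn N l *
        ((pp x i j + pp x i l + pp x j l) * tp x i j l) * (QQ x i j l +
          2 * pp x i j * (Dl x i l * Dl x j l * (Dl x i j)⁻¹))) +
      2 * ((sn N i + e) * (U x i)⁻¹ + (sn N j + e) * (U x j)⁻¹) *
        (sn N i * sn N j * (Dl x i j ^ 2 * (pp x i j)⁻¹ + 4)) := by
  have h1 := e1 hN h hij hi hj
  have hp := pp_ne h i j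
  have hs : Sg x i j ^ 2 = Dl x i j ^ 2 + 4 * pp x i j := by
    rw [Sg, Dl, pp]; ring
  have b : ∀ l, (if l = i ∨ l = j then 0 else sn N i * sn N j * sn N l *
        ((pp x i j + pp x i l + pp x j l) * tp x i j l) * (QQ x i j l +
          2 * pp x i j * (Dl x i l * Dl x j l * (Dl x i j)⁻¹))) =
      (sn N i * sn N j * Sg x i j * (Dl x i j)⁻¹) * (if l = i ∨ l = j then 0 else
        sn N l * ((pp x i j + pp x i l + pp x j l) *
        tp x i j l / 2 * (Dl x i j * Sg x i l * Sg x j l + Sg x i j * Dl x i l * Dl x j l))) := by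
    intro l
    by_cases hl : l = i ∨ l = j
    · rw [if_pos hl, if_pos hl, mul_zero]
    · rw [if_neg hl, if_neg hl]
      have hQ : QQ x i j l = (Sg x i j * Sg x i l * Sg x j l + Dl x i j * Dl x i l * Dl x j l) /
          2 := by
        rw [QQ, Sg, Sg, Sg, Dl, Dl, Dl]; ring
      rw [hQ]
      generalize tp x i j l = T
      generalize Dl x i l = d1
      generalize Dl x j l = d2
      generalize Sg x i l = s1
      generalize Sg x j l = s2
      field_simp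
      linear_combination (-(sn N l * (pp x i j + pp x i l + pp x j l) * T * d1 * d2)) * hs
  rw [Finset.sum_congr rfl fun l _ => b l, ← Finset.mul_sum]
  have h2 : (pp x i j)⁻¹ * Sg x i j ^ 2 = Dl x i j ^ 2 * (pp x i j)⁻¹ + 4 := by
    rw [hs]; field_simp
  have h3 : (Dl x i j)⁻¹ * Dl x i j = 1 := inv_mul_cancel₀ hD
  linear_combination (sn N i * sn N j * Sg x i j * (Dl x i j)⁻¹) * h1 +
    (2 * ((sn N i + e) * (U x i)⁻¹ + (sn N j + e) * (U x j)⁻¹) * (sn N i * sn N j)) * h2 +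
    (-(sn N i * sn N j * (bb N e * (pp x i j)⁻¹ - N none * (((W x i ^ 2 + W x j ^ 2) *
        (pp x i j)⁻¹ + 1) * ((W x i)⁻¹ * (W x j)⁻¹))) * Sg x i j) +
     2 * ((sn N i + e) * (U x i)⁻¹ + (sn N j + e) * (U x j)⁻¹) * (sn N i * sn N j) *
       ((pp x i j)⁻¹ * Sg x i j ^ 2)) * h3

end

end Pool.Agent.H98.BC
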