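import Pool.Agent.H43.BC.Defs

/-!
# Module Vol: the volume is constant along a curve of solutions

`nu a b c` is the totally symmetric weight `dm a b * wt a b c` of three different blocks.
(1) For every symmetric family `m`
`K ∑ d_ab m_ab y_ab + ∑ nu_abc (m_ab - m_ac - m_bc) x_ab y_ac y_bc = ∑ d_ab m_ab`,
`K = 2 (∑ N + 2 e)`, by relabelling and by the equations.
(2) `m = 1` shows that the scalar curvature is constant; its derivative and (1) with
`m = D x / x` give `∑ d_ab D x_ab / x_ab = 0`.
-/

set_option autoImplicit false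

namespace Pool.Agent.H98.BC

open Pool.Agent.H43.BC

variable {k : ℕ} {R : Type*} [CommRing R]

theorem dm_comm {N : Pb k → R} (hN : ∀ p, N (fl p) = N p) (e : R) (a b : Pb k) :
    dm N e a b = dm N e b a := by
  unfold dm
  by_cases h : b = fl a
  · have h' : a = fl b := by rw [h, fl_fl]
    rw [if_pos h, if_pos h', h, hN]
  · have h' : ¬ a = fl b := fun h' => h (by rw [h', fl_fl])
    rw [if_neg h, if_neg h']
    ring

theorem wt_comm (N : Pb k → R) (e : R) (a b c : Pb k) : wt N e a b c = wt N e b a c := by
  unfold wt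
  ring

theorem dw_comm {N : Pb k → R} (hN : ∀ p, N (fl p) = N p) (e : R) {a b c : Pb k}
    (hab : a ≠ b) (hac : a ≠ c) (hbc : b ≠ c) :
    dm N e a b * wt N e a b c = dm N e a c * wt N e a c b := by
  unfold dm wt
  by_cases h1 : b = fl a
  · have h2 : ¬ c = fl a := fun h => hbc (by rw [h1, h])
    have h3 : ¬ c = fl b := fun h => hac (by rw [h, h1, fl_fl])
    have h4 : ¬ b = fl c := fun h => h3 (by rw [h, fl_fl])
    rw [if_pos h1, if_neg h2, if_neg h3, if_neg h4]
    ring
  · by_cases h2 : c = fl a
    · have h3 : ¬ c = fl b := fun h => hab (fl_inj.1 (h2.symm.trans h))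
      have h4 : ¬ b = fl c := fun h => h3 (by rw [h, fl_fl])
      rw [if_neg h1, if_pos h2, if_neg h3, if_neg h4]
      ring
    · by_cases h3 : c = fl b
      · have h4 : b = fl c := by rw [h3, fl_fl]
        have h5 : N c = N b := by rw [h3, hN]
        rw [if_neg h1, if_neg h2, if_pos h3, if_pos h4, h5]
      · have h4 : ¬ b = fl c := fun h => h3 (by rw [h, fl_fl])
        rw [if_neg h1, if_neg h2, if_neg h3, if_neg h4]
        ring

/-- the symmetric weight of three blocks -/
def nu (N : Pb k → R) (e : R) (a b c : Pb k) : R :=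
  if a = b ∨ a = c ∨ b = c then 0 else dm N e a b * wt N e a b c

/-- the weight of two blocks -/
def de (N : Pb k → R) (e : R) (a b : Pb k) : R := if a = b then 0 else dm N e a b

theorem de_comm {N : Pb k → R} (hN : ∀ p, N (fl p) = N p) (e : R) (a b : Pb k) :
    de N e a b = de N e b a := by
  unfold de
  by_cases h : a = b
  · rw [if_pos h, if_pos h.symm]
  · rw [if_neg h, if_neg (Ne.symm h), dm_comm hN]

theorem nu_12 {N : Pb k → R} (hN : ∀ p, N (fl p) = N p) (e : R) (a b c : Pb k) :
    nu N e a b c = nu N e b a c := by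
  unfold nu
  by_cases h : a = b ∨ a = c ∨ b = c
  · rw [if_pos h, if_pos (by tauto)]
  · rw [if_neg h, if_neg (by tauto), dm_comm hN, wt_comm]

theorem nu_23 {N : Pb k → R} (hN : ∀ p, N (fl p) = N p) (e : R) (a b c : Pb k) :
    nu N e a b c = nu N e a c b := by
  unfold nu
  by_cases h : a = b ∨ a = c ∨ b = c
  · rw [if_pos h, if_pos (by tauto)]
  · rw [if_neg h, if_neg (by tauto)]
    push Not at h
    exact dw_comm hN e h.1 h.2.1 h.2.2

/-- the equations with the symmetric weights -/
theorem eqn' {N : Pb k → R} {e : R} {x y : Pb k → Pb k → R} (h : Sys N e x y) (a b : Pb k) :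
    de N e a b * (2 * ((∑ c, N c) + 2 * e) - x a b) =
      ∑ c, nu N e a b c * ((x a c ^ 2 + x b c ^ 2 - x a b ^ 2) * (y a c * y b c)) := by
  by_cases hab : a = b
  · rw [de, if_pos hab, zero_mul, eq_comm]
    refine Finset.sum_eq_zero fun c _ => ?_
    rw [nu, if_pos (Or.inl hab), zero_mul]
  · rw [de, if_neg hab, h.eqn a b hab]
    refine Finset.sum_congr rfl fun c _ => ?_
    by_cases hc : c = a ∨ c = b
    · rw [if_pos hc, nu, if_pos, zero_mul]
      rcases hc with h | h
      · exact Or.inr (Or.inl h.symm)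
      · exact Or.inr (Or.inr h.symm)
    · rw [if_neg hc, nu, if_neg]
      · ring
      · push Not at hc
        push Not
        exact ⟨hab, hc.1.symm, hc.2.symm⟩

section

variable {L : Type*} [Field L]

theorem ysymm {N : Pb k → L} {e : L} {x y : Pb k → Pb k → L} (h : Sys N e x y) (a b : Pb k) :
    y a b = y b a := by
  have h1 := h.inv a b
  have h2 := h.inv b a
  rw [h.symm b a] at h2
  have h3 : x a b ≠ 0 := left_ne_zero_of_mul_eq_one h1
  exact mul_left_cancel₀ h3 (h1.trans h2.symm)

theorem triple {N : Pb k → L} (hN : ∀ p, N (fl p) = N p) {e : L} {x y : Pb k → Pb k → L}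
    (h : Sys N e x y) (m : Pb k → Pb k → L) (hm : ∀ i j, m i j = m j i) :
    2 * ((∑ c, N c) + 2 * e) * (∑ a, ∑ b, de N e a b * m a b * y a b)
      + ∑ a, ∑ b, ∑ c, nu N e a b c * ((m a b - m a c - m b c) * (x a b * (y a c * y b c)))
      = ∑ a, ∑ b, de N e a b * m a b := by
  have hy := ysymm h
  -- relabelling
  have r1 : ∑ a, ∑ b, ∑ c, nu N e a b c * (m a c * (x a b * (y a c * y b c)))
      = ∑ a, ∑ b, ∑ c, nu N e a b c * (m a b * (x a c * (y a b * y b c))) := by
    refine Finset.sum_congr rfl fun i _ => ?_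
    rw [Finset.sum_comm]
    refine Finset.sum_congr rfl fun j _ => Finset.sum_congr rfl fun l _ => ?_
    rw [hy l j, nu_23 hN e i l j]
  have r2 : ∑ a, ∑ b, ∑ c, nu N e a b c * (m b c * (x a b * (y a c * y b c)))
      = ∑ a, ∑ b, ∑ c, nu N e a b c * (m a b * (x b c * (y a b * y a c))) := by
    have hsw : ∀ f : Pb k → Pb k → Pb k → L,
        ∑ i, ∑ j, ∑ l, f i j l = ∑ i, ∑ j, ∑ l, f l j i := by
      intro f
      rw [Finset.sum_comm]
      have : ∀ j, ∑ i, ∑ l, f i j l = ∑ i, ∑ l, f l j i := fun j => Finset.sum_comm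
      rw [Finset.sum_congr rfl fun j _ => this j, Finset.sum_comm]
    rw [hsw]
    refine Finset.sum_congr rfl fun i _ => Finset.sum_congr rfl fun j _ =>
      Finset.sum_congr rfl fun l _ => ?_
    rw [h.symm l j, hy l i, hy j i, hm j i, nu_12 hN e l j i, nu_23 hN e j l i,
      nu_12 hN e j i l]
    ring
  have r3 : ∀ i j, ∑ l, nu N e i j l *
      (x i j * (y i l * y j l) - x i l * (y i j * y j l) - x j l * (y i j * y i l))
      = - (y i j * (de N e i j * (2 * ((∑ c, N c) + 2 * e) - x i j))) := by
    intro i j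
    rw [eqn' h i j, Finset.mul_sum, ← Finset.sum_neg_distrib]
    refine Finset.sum_congr rfl fun l _ => ?_
    have h1 := h.inv i j
    have h2 := h.inv i l
    have h3 := h.inv j l
    linear_combination (-(nu N e i j l * y i l * y j l * x i j)) * h1
      + (nu N e i j l * y i j * y j l * x i l) * h2
      + (nu N e i j l * y i j * y i l * x j l) * h3
  have r4 : ∑ i, ∑ j, ∑ l, nu N e i j l *
        ((m i j - m i l - m j l) * (x i j * (y i l * y j l)))
      = ∑ i, ∑ j, m i j * ∑ l, nu N e i j l *
      (x i j * (y i l * y j l) - x i l * (y i j * y j l) - x j l * (y i j * y i l)) := by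
    have : ∀ i j l, nu N e i j l *
        ((m i j - m i l - m j l) * (x i j * (y i l * y j l)))
        = nu N e i j l * (m i j * (x i j * (y i l * y j l)))
        - nu N e i j l * (m i l * (x i j * (y i l * y j l)))
        - nu N e i j l * (m j l * (x i j * (y i l * y j l))) := by
      intro i j l; ring
    simp only [this, Finset.sum_sub_distrib]
    rw [r1, r2]
    simp only [← Finset.sum_sub_distrib]
    refine Finset.sum_congr rfl fun i _ => Finset.sum_congr rfl fun j _ => ?_
    rw [Finset.mul_sum]
    refine Finset.sum_congr rfl fun l _ => ?_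
    ring
  rw [r4]
  have r5 : ∀ i j, 2 * ((∑ c, N c) + 2 * e) * (de N e i j * m i j * y i j)
      + m i j * ∑ l, nu N e i j l *
      (x i j * (y i l * y j l) - x i l * (y i j * y j l) - x j l * (y i j * y i l))
      = de N e i j * m i j := by
    intro i j
    rw [r3 i j]
    have h1 := h.inv i j
    linear_combination de N e i j * m i j * h1
  rw [Finset.mul_sum, ← Finset.sum_add_distrib]
  refine Finset.sum_congr rfl fun i _ => ?_
  rw [Finset.mul_sum, ← Finset.sum_add_distrib]
  exact Finset.sum_congr rfl fun j _ => r5 i j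

end

theorem vol {k : ℕ} {F L : Type*} [Field F] [Field L] [Algebra F L]
    (N : Pb k → F) (hN : ∀ p, N (fl p) = N p) (e : F) (x y : Pb k → Pb k → L)
    (h : Sys (fun i => algebraMap F L (N i)) (algebraMap F L e) x y) (D : Derivation F L L) :
    ∑ a, ∑ b, algebraMap F L (de N e a b) * (D (x a b) / x a b) = 0 := by
  classical
  set ν : Pb k → L := fun i => algebraMap F L (N i) with hν
  set ε : L := algebraMap F L e with hε
  have hN' : ∀ p, ν (fl p) = ν p := fun p => by simp only [hν, hN]
  have hde : ∀ a b, de ν ε a b = algebraMap F L (de N e a b) := by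
    intro a b
    unfold de dm
    split_ifs
    · rw [map_zero]
    · simp only [hν, hε, map_mul, map_add]
    · simp only [hν, map_mul, map_add, map_zero]
  have hnu : ∀ a b c, nu ν ε a b c = algebraMap F L (nu N e a b c) := by
    intro a b c
    unfold nu dm wt
    split_ifs <;> simp only [hν, hε, map_mul, map_add, map_zero]
  have hK : 2 * ((∑ c, ν c) + 2 * ε) = algebraMap F L (2 * ((∑ c, N c) + 2 * e)) := by
    simp only [hν, hε, map_mul, map_add, map_sum, map_ofNat]
  have hx0 : ∀ i j, x i j ≠ 0 := fun i j => left_ne_zero_of_mul_eq_one (h.inv i j)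
  set m : Pb k → Pb k → L := fun i j => D (x i j) / x i j with hm
  have hms : ∀ i j, m i j = m j i := fun i j => by simp only [hm, h.symm i j]
  have hDx : ∀ i j, D (x i j) = m i j * x i j := fun i j => by
    simp only [hm]; rw [div_mul_cancel₀ _ (hx0 i j)]
  have hDy : ∀ i j, D (y i j) = - (m i j * y i j) := fun i j => by
    have h1 : D (x i j * y i j) = 0 := by rw [h.inv]; exact D.map_one_eq_zero
    rw [D.leibniz, smul_eq_mul, smul_eq_mul, hDx] at h1
    have h2 : x i j * (D (y i j) + m i j * y i j) = 0 := by linear_combination h1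
    have h3 := (mul_eq_zero.1 h2).resolve_left (hx0 i j)
    linear_combination h3
  have t1 := triple hN' h (fun _ _ => 1) (fun _ _ => rfl)
  have t2 := triple hN' h m hms
  simp only [hde, hnu, hK] at t1 t2
  have e1 : ∀ i j, D (algebraMap F L (de N e i j) * 1 * y i j)
      = - (algebraMap F L (de N e i j) * m i j * y i j) := by
    intro i j
    rw [mul_one, D.leibniz, D.map_algebraMap, hDy, smul_eq_mul, smul_eq_mul]
    ring
  have e2 : ∀ i j l, D (algebraMap F L (nu N e i j l) *
        ((1 - 1 - 1) * (x i j * (y i l * y j l))))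
      = - (algebraMap F L (nu N e i j l) *
        ((m i j - m i l - m j l) * (x i j * (y i l * y j l)))) := by
    intro i j l
    have h1 : ((1 : L) - 1 - 1) * (x i j * (y i l * y j l)) = -(x i j * (y i l * y j l)) := by
      ring
    rw [h1]
    simp only [D.leibniz, map_neg, D.map_algebraMap, smul_eq_mul, hDy, hDx]
    ring
  have d1 : D (∑ i, ∑ j, algebraMap F L (de N e i j) * 1 * y i j)
      = - ∑ i, ∑ j, algebraMap F L (de N e i j) * m i j * y i j := by
    simp only [map_sum, e1, Finset.sum_neg_distrib]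
  have d2 : D (∑ i, ∑ j, ∑ l, algebraMap F L (nu N e i j l) *
        ((1 - 1 - 1) * (x i j * (y i l * y j l))))
      = - ∑ i, ∑ j, ∑ l, algebraMap F L (nu N e i j l) *
        ((m i j - m i l - m j l) * (x i j * (y i l * y j l))) := by
    simp only [map_sum, e2, Finset.sum_neg_distrib]
  have d3 : D (∑ i, ∑ j, algebraMap F L (de N e i j) * 1) = 0 := by
    simp only [mul_one, map_sum, D.map_algebraMap, Finset.sum_const_zero]
  have t3 := congrArg D t1
  rw [map_add, D.leibniz (algebraMap F L _), D.map_algebraMap, d1, d2, d3,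
    smul_zero, add_zero, smul_eq_mul] at t3
  have t4 : ∑ a, ∑ b, algebraMap F L (de N e a b) * m a b = 0 := by
    rw [← t2]; linear_combination -t3
  exact t4

end Pool.Agent.H98.BC
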